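import Pool.Agent.Y56.BM.MN

set_option autoImplicit false
set_option linter.unusedSectionVars false

namespace Pool.Agent.Y56.BM

/-- The group of affine maps `t ↦ (N + 2) ^ n * t + a`. -/
@[ext] structure Aff (N : ℕ) where
  n : ℤ
  a : ℚ

namespace Aff

variable {N : ℕ}

theorem bpos (N : ℕ) : (0 : ℚ) < (N : ℚ) + 2 := by positivity

theorem bne (N : ℕ) : ((N : ℚ) + 2) ≠ 0 := (bpos N).ne'

instance : Mul (Aff N) := ⟨fun x y => ⟨x.n + y.n, x.a + ((N : ℚ) + 2) ^ x.n * y.a⟩⟩
instance : One (Aff N) := ⟨⟨0, 0⟩⟩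
instance : Inv (Aff N) := ⟨fun x => ⟨-x.n, -(((N : ℚ) + 2) ^ (-x.n) * x.a)⟩⟩

@[simp] theorem mul_n (x y : Aff N) : (x * y).n = x.n + y.n := rfl
@[simp] theorem mul_a (x y : Aff N) : (x * y).a = x.a + ((N : ℚ) + 2) ^ x.n * y.a := rfl
@[simp] theorem one_n : (1 : Aff N).n = 0 := rfl
@[simp] theorem one_a : (1 : Aff N).a = 0 := rfl
@[simp] theorem inv_n (x : Aff N) : (x⁻¹).n = -x.n := rfl
@[simp] theorem inv_a (x : Aff N) : (x⁻¹).a = -(((N : ℚ) + 2) ^ (-x.n) * x.a) := rfl

instance : Group (Aff N) := Group.ofLeftAxioms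
  (by
    intro x y z
    ext
    · simp [add_assoc]
    · simp only [mul_a, mul_n]
      rw [zpow_add₀ (bne N)]
      ring)
  (by intro x; ext <;> simp)
  (by intro x; ext <;> simp)

/-- lexicographic coordinates; large `n` means small element -/
def key (x : Aff N) : ℤ ×ₗ ℚ := toLex (-x.n, x.a)

theorem key_inj : Function.Injective (key (N := N)) := by
  intro x y h
  simp only [key, toLex_inj, Prod.mk.injEq, neg_inj] at h
  exact Aff.ext h.1 h.2

noncomputable instance : LinearOrder (Aff N) := LinearOrder.lift' key key_inj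

theorem lt_iff (x y : Aff N) : x < y ↔ y.n < x.n ∨ (x.n = y.n ∧ x.a < y.a) := by
  change key x < key y ↔ _
  simp only [key, Prod.Lex.toLex_lt_toLex, neg_lt_neg_iff, neg_inj]

theorem mul_lt_left (z : Aff N) {x y : Aff N} (h : x < y) : z * x < z * y := by
  rw [lt_iff] at h ⊢
  rcases h with h | ⟨e1, h⟩
  · left
    simp only [mul_n]
    linarith
  · right
    refine ⟨by simp [e1], ?_⟩
    simp only [mul_a]
    have : (0 : ℚ) < ((N : ℚ) + 2) ^ z.n := by positivity
    have := mul_lt_mul_of_pos_left h this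
    linarith

theorem mul_lt_right (z : Aff N) {x y : Aff N} (h : x < y) : x * z < y * z := by
  rw [lt_iff] at h ⊢
  rcases h with h | ⟨e1, h⟩
  · left
    simp only [mul_n]
    linarith
  · right
    refine ⟨by simp [e1], ?_⟩
    simp only [mul_a, e1]
    linarith

instance : MulLeftMono (Aff N) := ⟨by
  intro z x y h
  rcases h.eq_or_lt with h | h
  · rw [h]
  · exact (mul_lt_left z h).le⟩

instance : MulRightMono (Aff N) := ⟨by
  intro z x y h
  rcases h.eq_or_lt with h | h
  · rw [h]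
  · exact (mul_lt_right z h).le⟩

theorem n_anti {x y : Aff N} (h : x ≤ y) : y.n ≤ x.n := by
  rcases h.eq_or_lt with h | h
  · rw [h]
  · rw [lt_iff] at h
    rcases h with h | h
    · exact h.le
    · exact h.1.ge

end Aff

/-- The division ring. -/
abbrev KK (N : ℕ) (F : Type*) [Field F] := MN (Aff N) F

namespace KK

open MN

variable {N : ℕ} {F : Type*} [Field F]

/-- `f` has degree at most `n` -/
def Le (n : ℤ) (f : KK N F) : Prop := ∀ x, f.c x ≠ 0 → x.n ≤ n

theorem Le.mono {m n : ℤ} (h : m ≤ n) {f : KK N F} (hf : Le m f) : Le n f :=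
  fun x hx => (hf x hx).trans h

theorem Le.zero (n : ℤ) : Le n (0 : KK N F) := fun x hx => absurd rfl hx

theorem Le.add {n : ℤ} {f g : KK N F} (hf : Le n f) (hg : Le n g) : Le n (f + g) := by
  intro x hx
  by_cases h : f.c x = 0
  · by_cases h' : g.c x = 0
    · exact absurd (by rw [add_c, h, h', add_zero]) hx
    · exact hg x h'
  · exact hf x h

theorem Le.neg {n : ℤ} {f : KK N F} (hf : Le n f) : Le n (-f) := by
  intro x hx
  exact hf x (fun h => hx (by rw [neg_c, h, neg_zero]))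

theorem Le.sub {n : ℤ} {f g : KK N F} (hf : Le n f) (hg : Le n g) : Le n (f - g) := by
  rw [sub_eq_add_neg]; exact hf.add hg.neg

theorem Le.mul {m n : ℤ} {f g : KK N F} (hf : Le m f) (hg : Le n g) : Le (m + n) (f * g) := by
  intro x hx
  obtain ⟨a, ha, b, hb, hab⟩ := supp_mul f g hx
  rw [← hab]
  exact add_le_add (hf a ha) (hg b hb)

theorem zsmul_c (n : ℤ) (f : KK N F) (x : Aff N) : (n • f).c x = n * f.c x := by
  change (n • f.c) x = _
  simp

theorem Le.zsmul {n : ℤ} (r : ℤ) {f : KK N F} (hf : Le n f) : Le n (r • f) := by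
  intro x hx
  rw [zsmul_c] at hx
  exact hf x (right_ne_zero_of_mul hx)

theorem Le.sum {ι : Type*} (s : Finset ι) (f : ι → KK N F) (n : ℤ) (h : ∀ i ∈ s, Le n (f i)) :
    Le n (∑ i ∈ s, f i) := by
  classical
  induction s using Finset.induction_on with
  | empty => simpa using Le.zero n
  | insert a s ha ih =>
    rw [Finset.sum_insert ha]
    exact (h a (Finset.mem_insert_self _ _)).add (ih fun i hi => h i (Finset.mem_insert_of_mem hi))

theorem Le.single (g : Aff N) (r : F) : Le g.n (MN.single g r) := by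
  intro x hx
  by_cases h : x = g
  · rw [h]
  · exact absurd (single_ne _ _ _ h) hx

theorem Le.one : Le 0 (1 : KK N F) := Le.single 1 1

theorem Le.intCast (r : ℤ) : Le 0 ((r : ℤ) : KK N F) := by
  have : ((r : ℤ) : KK N F) = r • (1 : KK N F) := by simp
  rw [this]
  exact Le.one.zsmul r

/-- leading coefficients multiply -/
theorem lead_mul {f g : KK N F} {a b : Aff N} (ha : ∀ x, x < a → f.c x = 0) (hb : ∀ x, x < b → g.c x = 0) :
    (f * g).c (a * b) = f.c a * g.c b := by
  rw [mul_c, finsum_eq_single _ a]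
  · rw [inv_mul_cancel_left]
  · intro c hc
    rcases lt_or_gt_of_ne hc with h | h
    · rw [ha c h, zero_mul]
    · rw [hb _ _, mul_zero]
      rw [← mul_assoc]
      calc c⁻¹ * a * b < 1 * b := by
            apply mul_lt_mul_left
            rw [inv_mul_lt_iff_lt_mul, mul_one]
            exact h
        _ = b := one_mul b

theorem inv_lead {f : KK N F} {a : Aff N} (hf : f.c a ≠ 0) (ha : ∀ x, x < a → f.c x = 0) :
    (∀ x, x < a⁻¹ → (f⁻¹).c x = 0) ∧ f.c a * (f⁻¹).c a⁻¹ = 1 := by
  have hf0 : f ≠ 0 := by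
    intro h; rw [h] at hf; exact hf rfl
  have hz0 : f⁻¹ ≠ 0 := inv_ne_zero hf0
  obtain ⟨b, hb, hb'⟩ := ex_lead f⁻¹ hz0
  have h1 := lead_mul ha hb'
  rw [mul_inv_cancel₀ hf0] at h1
  have h2 : a * b = 1 := by
    by_contra h
    have : (1 : KK N F).c (a * b) = 0 := single_ne _ _ _ h
    rw [this] at h1
    exact mul_ne_zero hf hb h1.symm
  have h3 : b = a⁻¹ := by rw [eq_inv_iff_mul_eq_one, ← inv_eq_iff_mul_eq_one.mpr h2]; simp
  subst h3
  refine ⟨hb', ?_⟩
  rw [← h1, h2, one_def, single_same]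

theorem Le.inv {f : KK N F} {a : Aff N} (hf : f.c a ≠ 0) (ha : ∀ x, x < a → f.c x = 0) :
    Le (-a.n) f⁻¹ := by
  intro x hx
  have h := (inv_lead hf ha).1
  have : a⁻¹ ≤ x := by
    by_contra h'
    exact hx (h x (not_le.mp h'))
  exact Aff.n_anti this

end KK

end Pool.Agent.Y56.BM
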