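import Pool.Agent.Y56.BM.Aff

set_option autoImplicit false
set_option linter.unusedSectionVars false
set_option linter.unusedVariables false

namespace Pool.Agent.Y56.BM

open MN

namespace Br

/-- words in `N + 2` letters -/
abbrev W (N : ℕ) : Type := FreeMonoid (Fin (N + 2))

variable {N : ℕ}

/-- the letters in the group -/
def letter (z : Fin (N + 2)) : Aff N := ⟨1, (z.val : ℚ)⟩

/-- the embedding of words -/
def wd : W N →* Aff N := FreeMonoid.lift letter

theorem wd_of_mul (z : Fin (N + 2)) (w : W N) :
    wd (FreeMonoid.of z * w) = letter z * wd w := by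
  rw [map_mul, wd, FreeMonoid.lift_eval_of]

theorem wd_of (z : Fin (N + 2)) : wd (FreeMonoid.of z) = letter z := by
  rw [wd, FreeMonoid.lift_eval_of]

theorem wd_one : wd (1 : W N) = 1 := map_one _

/-- `N+2`-ary value of a word -/
theorem wd_nat (w : W N) : ∃ k : ℕ, (wd w).a = (k : ℚ) := by
  induction w using FreeMonoid.recOn with
  | one => exact ⟨0, by rw [wd_one]; simp⟩
  | of_mul z w ih =>
    obtain ⟨k, hk⟩ := ih
    refine ⟨z.val + (N + 2) * k, ?_⟩
    rw [wd_of_mul, Aff.mul_a, hk]
    simp [letter]

theorem wd_n (w : W N) : (wd w).n = (w.length : ℤ) := by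
  induction w using FreeMonoid.recOn with
  | one => rw [wd_one]; simp
  | of_mul z w ih =>
    rw [wd_of_mul, Aff.mul_n, ih, FreeMonoid.length_mul, FreeMonoid.length_of]
    simp only [letter]
    push_cast
    ring

theorem wd_len (w : W N) : 0 ≤ (wd w).n := by
  rw [wd_n]; positivity

theorem wd_inj : Function.Injective (wd (N := N)) := by
  intro v
  induction v using FreeMonoid.recOn with
  | one =>
    intro w h
    induction w using FreeMonoid.recOn with
    | one => rfl
    | of_mul z w _ =>
      exfalso
      rw [wd_of_mul, wd_one] at h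
      have h1 := congrArg Aff.n h
      have h2 := wd_len w
      simp only [Aff.mul_n, Aff.one_n, letter] at h1
      omega
  | of_mul y v ihv =>
    intro w h
    induction w using FreeMonoid.recOn with
    | one =>
      exfalso
      rw [wd_of_mul, wd_one] at h
      have h1 := congrArg Aff.n h
      have h2 := wd_len v
      simp only [Aff.mul_n, Aff.one_n, letter] at h1
      omega
    | of_mul z w _ =>
      rw [wd_of_mul, wd_of_mul] at h
      have h1 := congrArg Aff.n h
      have h2 := congrArg Aff.a h
      obtain ⟨k, hk⟩ := wd_nat v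
      obtain ⟨l, hl⟩ := wd_nat w
      simp only [Aff.mul_n, letter] at h1
      simp only [Aff.mul_a, letter, hk, hl, zpow_one] at h2
      have h3 : y.val + (N + 2) * k = z.val + (N + 2) * l := by exact_mod_cast h2
      have h4 : y = z := by
        apply Fin.ext
        have e1 := congrArg (· % (N + 2)) h3
        simp only [Nat.add_mul_mod_self_left] at e1
        rwa [Nat.mod_eq_of_lt y.2, Nat.mod_eq_of_lt z.2] at e1
      subst h4
      have h5 : k = l := by
        have h6 : (N + 2) * k = (N + 2) * l := by omega
        exact Nat.eq_of_mul_eq_mul_left (by omega) h6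
      have : wd v = wd w := by
        apply Aff.ext
        · omega
        · rw [hk, hl, h5]
      rw [ihv this]

variable {F : Type*} [Field F]

/-- monomials as a monoid homomorphism -/
noncomputable def mon : Aff N →* KK N F where
  toFun g := single g 1
  map_one' := rfl
  map_mul' g h := by rw [single_mul_single, mul_one]

/-- the free algebra -/
abbrev R0 (N : ℕ) (F : Type*) [Field F] : Type _ := MonoidAlgebra F (W N)

/-- augmentation -/
noncomputable def eps : R0 N F →ₐ[F] F := MonoidAlgebra.lift F F (W N) (FreeMonoid.lift fun _ => 0)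

/-- embedding in the division ring -/
noncomputable def del : R0 N F →ₐ[F] KK N F := MonoidAlgebra.lift F (KK N F) (W N) (mon.comp wd)

variable (x y : Fin (N + 2))

/-- generators of the triangular representation -/
noncomputable def gen (z : Fin (N + 2)) : Matrix (Fin 3) (Fin 3) (KK N F) :=
  !![0, (if z = y then 1 else 0), 0; 0, single (letter z) 1, (if z = x then 1 else 0); 0, 0, 0]

/-- the triangular representation on words -/
noncomputable def genW : W N →* Matrix (Fin 3) (Fin 3) (KK N F) := FreeMonoid.lift (gen x y)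

/-- the triangular representation -/
noncomputable def rho : R0 N F →ₐ[F] Matrix (Fin 3) (Fin 3) (KK N F) :=
  MonoidAlgebra.lift F _ (W N) (genW x y)

theorem genW_of_mul (z : Fin (N + 2)) (w : W N) :
    (genW x y (FreeMonoid.of z * w) : Matrix (Fin 3) (Fin 3) (KK N F)) =
      gen x y z * genW x y w := by
  rw [map_mul, genW, FreeMonoid.lift_eval_of]

theorem genW_shape (w : W N) : (genW x y w 1 0 : KK N F) = 0 ∧ (genW x y w 2 0 : KK N F) = 0 ∧
    (genW x y w 2 1 : KK N F) = 0 ∧
    (genW x y w 0 0 : KK N F) = algebraMap F (KK N F) (FreeMonoid.lift (fun _ => (0 : F)) w) ∧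
    (genW x y w 2 2 : KK N F) = algebraMap F (KK N F) (FreeMonoid.lift (fun _ => (0 : F)) w) ∧
    (genW x y w 1 1 : KK N F) = mon (wd w) := by
  induction w using FreeMonoid.recOn with
  | one => simp
  | of_mul z w ih =>
    obtain ⟨h1, h2, h3, h4, h5, h6⟩ := ih
    rw [genW_of_mul, wd_of_mul, map_mul, map_mul, FreeMonoid.lift_eval_of]
    simp [gen, Matrix.mul_apply, Fin.sum_univ_three, h1, h2, h3, h4, h5, h6, mon,
      single_mul_single]

theorem rho_single (w : W N) (r : F) :
    rho x y (MonoidAlgebra.single w r) = r • (genW x y w : Matrix (Fin 3) (Fin 3) (KK N F)) := by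
  rw [rho, MonoidAlgebra.lift_single]

theorem del_single (w : W N) (r : F) :
    del (MonoidAlgebra.single w r) = r • (mon (wd w) : KK N F) := by
  rw [del, MonoidAlgebra.lift_single]; rfl

theorem eps_single (w : W N) (r : F) : eps (MonoidAlgebra.single w r) =
    r • (FreeMonoid.lift (fun _ => (0 : F)) w) := by
  rw [eps, MonoidAlgebra.lift_single]

theorem rho_shape (a : R0 N F) : rho x y a 1 0 = 0 ∧ rho x y a 2 0 = 0 ∧ rho x y a 2 1 = 0 ∧
    rho x y a 0 0 = algebraMap F (KK N F) (eps a) ∧
    rho x y a 2 2 = algebraMap F (KK N F) (eps a) ∧ rho x y a 1 1 = del a := by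
  induction a using MonoidAlgebra.induction_linear with
  | zero => simp
  | add a b ha hb =>
    obtain ⟨h1, h2, h3, h4, h5, h6⟩ := ha
    obtain ⟨k1, k2, k3, k4, k5, k6⟩ := hb
    simp only [map_add, Matrix.add_apply, h1, h2, h3, h4, h5, h6, k1, k2, k3, k4, k5, k6]
    refine ⟨by simp, by simp, by simp, trivial, trivial, trivial⟩
  | single w r =>
    obtain ⟨h1, h2, h3, h4, h5, h6⟩ := genW_shape (F := F) x y w
    rw [rho_single, del_single, eps_single]
    simp only [Matrix.smul_apply, h1, h2, h3, h4, h5, h6]
    refine ⟨by simp, by simp, by simp, ?_, ?_, trivial⟩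
    · rw [Algebra.smul_def, ← map_mul]; rfl
    · rw [Algebra.smul_def, ← map_mul]; rfl

/-- left derivative with respect to the letter `y` -/
noncomputable def D (a : R0 N F) : KK N F := rho x y a 0 1
/-- right derivative with respect to the letter `x` -/
noncomputable def D' (a : R0 N F) : KK N F := rho x y a 1 2
/-- double derivative -/
noncomputable def T (a : R0 N F) : KK N F := rho x y a 0 2

theorem D_mul (a b : R0 N F) : D x y (a * b) =
    algebraMap F (KK N F) (eps a) * D x y b + D x y a * del b := by
  obtain ⟨h1, h2, h3, h4, h5, h6⟩ := rho_shape x y a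
  obtain ⟨k1, k2, k3, k4, k5, k6⟩ := rho_shape x y b
  simp only [D, map_mul, Matrix.mul_apply, Fin.sum_univ_three, h4, k3, k6, mul_zero, add_zero]

theorem D'_mul (a b : R0 N F) : D' x y (a * b) =
    del a * D' x y b + D' x y a * algebraMap F (KK N F) (eps b) := by
  obtain ⟨h1, h2, h3, h4, h5, h6⟩ := rho_shape x y a
  obtain ⟨k1, k2, k3, k4, k5, k6⟩ := rho_shape x y b
  simp only [D', map_mul, Matrix.mul_apply, Fin.sum_univ_three, h1, h6, k5, zero_mul, zero_add]

theorem T_mul (a b : R0 N F) : T x y (a * b) =
    algebraMap F (KK N F) (eps a) * T x y b + D x y a * D' x y b +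
    T x y a * algebraMap F (KK N F) (eps b) := by
  obtain ⟨h1, h2, h3, h4, h5, h6⟩ := rho_shape x y a
  obtain ⟨k1, k2, k3, k4, k5, k6⟩ := rho_shape x y b
  simp only [T, D, D', map_mul, Matrix.mul_apply, Fin.sum_univ_three, h4, k5]

theorem D_one : D x y (1 : R0 N F) = 0 := by simp [D]
theorem D'_one : D' x y (1 : R0 N F) = 0 := by simp [D']
theorem T_one : T x y (1 : R0 N F) = 0 := by simp [T]
theorem D_add (a b : R0 N F) : D x y (a + b) = D x y a + D x y b := by simp [D]
theorem D'_add (a b : R0 N F) : D' x y (a + b) = D' x y a + D' x y b := by simp [D']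
theorem T_add (a b : R0 N F) : T x y (a + b) = T x y a + T x y b := by simp [T]
theorem D_zero : D x y (0 : R0 N F) = 0 := by simp [D]
theorem D'_zero : D' x y (0 : R0 N F) = 0 := by simp [D']
theorem T_zero : T x y (0 : R0 N F) = 0 := by simp [T]
theorem D_smul (r : F) (a : R0 N F) : D x y (r • a) = r • D x y a := by simp [D]
theorem D'_smul (r : F) (a : R0 N F) : D' x y (r • a) = r • D' x y a := by simp [D']
theorem T_smul (r : F) (a : R0 N F) : T x y (r • a) = r • T x y a := by simp [T]

/-- basis words -/
noncomputable def bw (w : W N) : R0 N F := MonoidAlgebra.single w 1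

theorem bw_mul (v w : W N) : (bw (v * w) : R0 N F) = bw v * bw w := by
  rw [bw, bw, bw, MonoidAlgebra.single_mul_single, one_mul]

theorem bw_one : (bw 1 : R0 N F) = 1 := rfl

theorem single_eq (w : W N) (r : F) : MonoidAlgebra.single w r = r • (bw w : R0 N F) := by
  rw [bw, MonoidAlgebra.smul_single, smul_eq_mul, mul_one]

theorem del_bw (w : W N) : del (bw w : R0 N F) = single (wd w) 1 := by
  rw [bw, del_single, one_smul]; rfl

theorem eps_of (z : Fin (N + 2)) : eps (bw (FreeMonoid.of z) : R0 N F) = 0 := by
  rw [bw, eps_single, FreeMonoid.lift_eval_of, smul_zero]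

theorem rho_of (z : Fin (N + 2)) : rho x y (bw (FreeMonoid.of z)) = (gen x y z : Matrix _ _ (KK N F)) := by
  rw [bw, rho_single, one_smul, genW, FreeMonoid.lift_eval_of]

theorem D_of (z : Fin (N + 2)) : D x y (bw (FreeMonoid.of z) : R0 N F) = if z = y then 1 else 0 := by
  rw [D, rho_of]; simp [gen]

theorem D'_of (z : Fin (N + 2)) : D' x y (bw (FreeMonoid.of z) : R0 N F) = if z = x then 1 else 0 := by
  rw [D', rho_of]; simp [gen]

theorem T_of (z : Fin (N + 2)) : T x y (bw (FreeMonoid.of z) : R0 N F) = 0 := by
  rw [T, rho_of]; simp [gen]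

theorem D_of_mul (z : Fin (N + 2)) (w : W N) : D x y (bw (FreeMonoid.of z * w) : R0 N F) =
    if z = y then single (wd w) 1 else 0 := by
  rw [bw_mul, D_mul, eps_of, map_zero, zero_mul, zero_add, D_of, del_bw]
  split_ifs <;> simp

theorem D'_mul_of (z : Fin (N + 2)) (w : W N) : D' x y (bw (w * FreeMonoid.of z) : R0 N F) =
    if z = x then single (wd w) 1 else 0 := by
  rw [bw_mul, D'_mul, eps_of, map_zero, mul_zero, add_zero, D'_of, del_bw]
  split_ifs <;> simp

/-- elements with support in nonnegative degrees -/
def Ge (f : KK N F) : Prop := ∀ g, f.c g ≠ 0 → 0 ≤ g.n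

theorem Ge.zero : Ge (0 : KK N F) := fun g hg => absurd rfl hg

theorem Ge.add {f g : KK N F} (hf : Ge f) (hg : Ge g) : Ge (f + g) := by
  intro z hz
  by_cases h : f.c z = 0
  · by_cases h' : g.c z = 0
    · exact absurd (by rw [add_c, h, h', add_zero]) hz
    · exact hg z h'
  · exact hf z h

theorem Ge.mul {f g : KK N F} (hf : Ge f) (hg : Ge g) : Ge (f * g) := by
  intro z hz
  obtain ⟨a, ha, b, hb, hab⟩ := supp_mul f g hz
  rw [← hab]
  exact add_nonneg (hf a ha) (hg b hb)

theorem Ge.single (g : Aff N) (hg : 0 ≤ g.n) (r : F) : Ge (MN.single g r) := by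
  intro z hz
  by_cases h : z = g
  · rw [h]; exact hg
  · exact absurd (single_ne _ _ _ h) hz

theorem Ge.one : Ge (1 : KK N F) := Ge.single 1 le_rfl 1

theorem Ge.smul (r : F) {f : KK N F} (hf : Ge f) : Ge (r • f) := by
  intro z hz
  rw [smul_c] at hz
  exact hf z (right_ne_zero_of_mul hz)

theorem Le.smul {n : ℤ} (r : F) {f : KK N F} (hf : KK.Le n f) : KK.Le n (r • f) := by
  intro z hz
  rw [smul_c] at hz
  exact hf z (right_ne_zero_of_mul hz)

theorem Le.algebraMap (r : F) : KK.Le 0 (algebraMap F (KK N F) r) := by
  rw [Algebra.algebraMap_eq_smul_one]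
  exact Le.smul r KK.Le.one

theorem D_ge (a : R0 N F) : Ge (D x y a) := by
  induction a using MonoidAlgebra.induction_linear with
  | zero => rw [D_zero]; exact Ge.zero
  | add a b ha hb => rw [D_add]; exact ha.add hb
  | single w r =>
    rw [single_eq, D_smul]
    apply Ge.smul
    induction w using FreeMonoid.recOn with
    | one => rw [bw_one, D_one]; exact Ge.zero
    | of_mul z w _ =>
      rw [D_of_mul]
      split_ifs
      · exact Ge.single _ (wd_len _) _
      · exact Ge.zero

theorem T_ge (a : R0 N F) : Ge (T x y a) := by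
  induction a using MonoidAlgebra.induction_linear with
  | zero => rw [T_zero]; exact Ge.zero
  | add a b ha hb => rw [T_add]; exact ha.add hb
  | single w r =>
    rw [single_eq, T_smul]
    apply Ge.smul
    have hD' : ∀ w : W N, Ge (D' x y (bw w : R0 N F)) := by
      intro w
      induction w using FreeMonoid.recOn with
      | one => rw [bw_one, D'_one]; exact Ge.zero
      | of_mul z w ih =>
        rw [bw_mul, D'_mul, del_bw, D'_of]
        refine Ge.add ((Ge.single _ (by rw [wd_of]; simp [letter]) _).mul ih) (Ge.mul ?_ ?_)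
        · split_ifs
          · exact Ge.one
          · exact Ge.zero
        · rw [Algebra.algebraMap_eq_smul_one]; exact Ge.smul _ Ge.one
    induction w using FreeMonoid.recOn with
    | one => rw [bw_one, T_one]; exact Ge.zero
    | of_mul z w ih =>
      rw [bw_mul, T_mul, eps_of, T_of, map_zero, zero_mul, zero_mul, zero_add, add_zero, D_of]
      refine Ge.mul ?_ (hD' w)
      split_ifs
      · exact Ge.one
      · exact Ge.zero

/-- the base point, of degree `-1` -/
def g0 : Aff N := (letter x)⁻¹

theorem g0_n : (g0 x).n = -1 := rfl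

theorem T_c (a : R0 N F) : (T x y a).c (g0 x) = 0 := by
  by_contra h
  have h1 := T_ge x y a _ h
  rw [g0_n] at h1
  omega

theorem c_g0 {f : KK N F} (hf : KK.Le (-2) f) : f.c (g0 x) = 0 := by
  by_contra h
  have h1 := hf (g0 x) h
  rw [g0_n] at h1
  omega

/-- degree bounds on words -/
theorem D_le (a : R0 N F) (d : ℤ) (h : ∀ w, a.coeff (FreeMonoid.of y * w) ≠ 0 → (wd w).n ≤ d) :
    KK.Le d (D x y a) := by
  have e : a = ∑ w ∈ a.coeff.support, a.coeff w • (bw w : R0 N F) := by
    conv_lhs => rw [← MonoidAlgebra.sum_coeff_single a]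
    rw [Finsupp.sum]
    exact Finset.sum_congr rfl fun w _ => single_eq w _
  have e2 : D x y a = ∑ w ∈ a.coeff.support, a.coeff w • D x y (bw w : R0 N F) := by
    conv_lhs => rw [e]
    rw [D, map_sum, Matrix.sum_apply]
    exact Finset.sum_congr rfl fun w _ => D_smul x y _ _
  rw [e2]
  apply KK.Le.sum
  intro w hw
  apply Le.smul
  induction w using FreeMonoid.recOn with
  | one => rw [bw_one, D_one]; exact KK.Le.zero _
  | of_mul z w _ =>
    rw [D_of_mul]
    split_ifs with hz
    · subst hz
      exact (KK.Le.single _ _).mono (h w (by simpa using hw))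
    · exact KK.Le.zero _

theorem D'_le (a : R0 N F) (d : ℤ) (h : ∀ w, a.coeff w ≠ 0 → (wd w).n ≤ d) :
    KK.Le (d - 1) (D' x y a) := by
  have e : a = ∑ w ∈ a.coeff.support, a.coeff w • (bw w : R0 N F) := by
    conv_lhs => rw [← MonoidAlgebra.sum_coeff_single a]
    rw [Finsupp.sum]
    exact Finset.sum_congr rfl fun w _ => single_eq w _
  have e2 : D' x y a = ∑ w ∈ a.coeff.support, a.coeff w • D' x y (bw w : R0 N F) := by
    conv_lhs => rw [e]
    rw [D', map_sum, Matrix.sum_apply]
    exact Finset.sum_congr rfl fun w _ => D'_smul x y _ _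
  have hD' : ∀ w : W N, KK.Le ((wd w).n - 1) (D' x y (bw w : R0 N F)) := by
    intro w
    induction w using FreeMonoid.recOn with
    | one => rw [bw_one, D'_one]; exact KK.Le.zero _
    | of_mul z w ih =>
      rw [bw_mul, D'_mul, del_bw, D'_of, wd_of]
      have hn : (wd (FreeMonoid.of z * w)).n - 1 = (wd w).n := by
        rw [wd_of_mul, Aff.mul_n]; simp only [letter]; ring
      rw [hn]
      refine KK.Le.add (((KK.Le.single (letter z) (1 : F)).mul ih).mono ?_)
        (((?_ : KK.Le 0 _).mul (Le.algebraMap _)).mono ?_)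
      · simp [letter]
      · split_ifs
        · exact KK.Le.one
        · exact KK.Le.zero _
      · have := wd_len w
        omega
  rw [e2]
  apply KK.Le.sum
  intro w hw
  apply Le.smul
  exact (hD' w).mono (by have := h w (by simpa using hw); omega)

theorem del_le (a : R0 N F) (d : ℤ) (h : ∀ w, a.coeff w ≠ 0 → (wd w).n ≤ d) :
    KK.Le d (del a) := by
  have e : a = ∑ w ∈ a.coeff.support, a.coeff w • (bw w : R0 N F) := by
    conv_lhs => rw [← MonoidAlgebra.sum_coeff_single a]
    rw [Finsupp.sum]
    exact Finset.sum_congr rfl fun w _ => single_eq w _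
  rw [e, map_sum]
  apply KK.Le.sum
  intro w hw
  rw [map_smul, del_bw]
  exact Le.smul _ ((KK.Le.single _ _).mono (h w (by simpa using hw)))

theorem D_coeff (a : R0 N F) (w : W N) : (D x y a).c (wd w) = a.coeff (FreeMonoid.of y * w) := by
  induction a using MonoidAlgebra.induction_linear with
  | zero => rw [D_zero]; simp
  | add a b ha hb => rw [D_add, add_c, ha, hb]; simp
  | single v r =>
    rw [single_eq, D_smul, smul_c]
    induction v using FreeMonoid.recOn with
    | one =>
      rw [bw_one, D_one]
      have h : (1 : W N) ≠ FreeMonoid.of y * w := by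
        intro h
        have := congrArg FreeMonoid.length h
        simp [FreeMonoid.length_mul, FreeMonoid.length_of] at this
        omega
      simp [MonoidAlgebra.one_def, h]
    | of_mul z v _ =>
      rw [D_of_mul]
      by_cases hz : z = y
      · subst hz
        rw [if_pos rfl]
        by_cases hv : v = w
        · subst hv
          simp [bw]
        · rw [single_ne _ _ _ (fun h' => hv (wd_inj h').symm)]
          have h2 : FreeMonoid.of z * v ≠ FreeMonoid.of z * w := fun h => hv (mul_left_cancel h)
          simp [bw, h2]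
      · rw [if_neg hz]
        have h2 : FreeMonoid.of z * v ≠ FreeMonoid.of y * w := by
          intro h
          have h3 := congrArg FreeMonoid.toList h
          simp only [FreeMonoid.toList_of_mul, List.cons.injEq] at h3
          exact hz h3.1
        simp [bw, h2]

theorem del_coeff (a : R0 N F) (w : W N) : (del a).c (wd w) = a.coeff w := by
  induction a using MonoidAlgebra.induction_linear with
  | zero => simp
  | add x y hx hy => rw [map_add, add_c, hx, hy]; simp
  | single v r =>
    rw [del_single, smul_c]
    change r * (single (wd v) 1).c (wd w) = _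
    by_cases h : v = w
    · subst h
      simp
    · rw [single_ne _ _ _ (fun h' => h (wd_inj h').symm)]
      simp [h]

end Br

end Pool.Agent.Y56.BM
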