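import Pool.Agent.Y56.BM.Ma

set_option autoImplicit false
set_option linter.unusedSectionVars false
set_option linter.unusedVariables false

namespace Pool.Agent.Y56.BM

open MN

/-- brachymorphisms -/
def Brachy {R S : Type*} [Ring R] [Ring S] (f : R → S) : Prop :=
  (∀ a, f (1 + a) = 1 + f a) ∧ ∀ a b, f (a * b) = f a * f b

namespace Br

variable {N : ℕ} {F : Type*} [Field F]

theorem E_brachy (x y : Fin (N + 2)) : Brachy (E (F := F) x y) := ⟨E_one_add x y, E_mul x y⟩

theorem ex_ne (z : Fin (N + 2)) : ∃ t, t ≠ z := exists_ne z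

theorem last_cases (w : W N) : w = 1 ∨ ∃ (v : W N) (z : Fin (N + 2)), w = v * FreeMonoid.of z := by
  rcases List.eq_nil_or_concat w.toList with h | ⟨L, b, h⟩
  · left
    exact FreeMonoid.toList.injective h
  · right
    refine ⟨FreeMonoid.ofList L, b, ?_⟩
    apply FreeMonoid.toList.injective
    rw [h]
    simp

theorem first_cases (w : W N) : w = 1 ∨ ∃ (z : Fin (N + 2)) (v : W N), w = FreeMonoid.of z * v := by
  induction w using FreeMonoid.recOn with
  | one => left; rfl
  | of_mul z v _ => right; exact ⟨z, v, rfl⟩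

/-- the main step over a field and for finitely many letters -/
theorem not_add (a : R0 N F) (w0 : W N) (hw0 : w0 ≠ 1) (h0 : a.coeff w0 ≠ 0) :
    ∃ x y : Fin (N + 2), ∃ b ∈ AddSubmonoid.closure (Set.range (bw (N := N) (F := F))),
      E x y (a + b) ≠ E x y a + E x y b := by
  classical
  obtain ⟨y, w1, rfl⟩ : ∃ (z : Fin (N + 2)) (v : W N), w0 = FreeMonoid.of z * v :=
    (first_cases w0).resolve_left hw0
  -- longest word starting with `y`
  obtain ⟨wm, hwm, hmax⟩ := Finset.exists_max_image
    (a.coeff.support.filter fun w => ∃ v, w = FreeMonoid.of y * v) FreeMonoid.length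
    ⟨_, by simpa using ⟨h0, w1, rfl⟩⟩
  rw [Finset.mem_filter] at hwm
  obtain ⟨hwm0, w, rfl⟩ := hwm
  have hc : a.coeff (FreeMonoid.of y * w) ≠ 0 := by simpa using hwm0
  have hmax' : ∀ v, a.coeff (FreeMonoid.of y * v) ≠ 0 → (wd v).n ≤ w.length := by
    intro v hv
    have := hmax (FreeMonoid.of y * v) (by
      rw [Finset.mem_filter]
      exact ⟨by simpa using hv, v, rfl⟩)
    rw [FreeMonoid.length_mul, FreeMonoid.length_mul, FreeMonoid.length_of] at this
    rw [wd_n]
    exact_mod_cast (by omega : v.length ≤ w.length)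
  obtain ⟨d, hd⟩ := deg_bound a
  have hwd : (w.length : ℤ) + 1 ≤ d := by
    have := hd _ hc
    rw [wd_n, FreeMonoid.length_mul, FreeMonoid.length_of] at this
    push_cast at this
    omega
  obtain ⟨x, hx⟩ : ∃ x : Fin (N + 2), w = 1 ∨ ∃ (v : W N) (z : Fin (N + 2)), w = v * FreeMonoid.of z ∧
      z ≠ x := by
    rcases last_cases w with h | ⟨v, z, h⟩
    · exact ⟨y, Or.inl h⟩
    · obtain ⟨x, hx⟩ := ex_ne z
      exact ⟨x, Or.inr ⟨v, z, h, hx.symm⟩⟩
  obtain ⟨t, ht⟩ := ex_ne y
  obtain ⟨t', ht'⟩ := ex_ne x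
  refine ⟨x, y, ?_⟩
  by_contra hcon
  push Not at hcon
  have hsnd : ∀ b ∈ AddSubmonoid.closure (Set.range (bw (N := N) (F := F))),
      phi x y (b + a) = phi x y a + phi x y b := by
    intro b hb
    have := congrArg TrivSqZeroExt.snd (hcon b hb)
    rw [TrivSqZeroExt.snd_add, E_snd, E_snd, E_snd] at this
    rw [add_comm b a]
    exact this
  set u : W N := FreeMonoid.of t * FreeMonoid.of t ^ (2 * d) with hu
  have hul : u.length = 2 * d + 1 := by
    rw [hu, FreeMonoid.length_mul, FreeMonoid.length_of]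
    have : ∀ n : ℕ, (FreeMonoid.of t ^ n : W N).length = n := by
      intro n
      induction n with
      | zero => simp
      | succ n ih => rw [pow_succ, FreeMonoid.length_mul, ih, FreeMonoid.length_of]
    rw [this]; ring
  have hD : ∀ v : W N, D x y (bw (u * v) : R0 N F) = 0 := by
    intro v
    rw [hu, mul_assoc, D_of_mul, if_neg ht]
  have hDa : KK.Le (w.length : ℤ) (D x y a) := D_le x y a _ hmax'
  have hda : KK.Le (d : ℤ) (del a) := del_le a d hd
  have hD'a : KK.Le ((d : ℤ) - 1) (D' x y a) := D'_le x y a d hd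
  -- the second test element
  have h2 : phi x y (bw (u * FreeMonoid.of t') + a) = 0 := by
    have hl : (u * FreeMonoid.of t').length = 2 * d + 2 := by
      rw [FreeMonoid.length_mul, FreeMonoid.length_of, hul]
    refine comp2 x y a _ (u * FreeMonoid.of t') w.length (hD _) ?_ (del_bw _) hDa
      (hda.mono ?_) (hD'a.mono ?_)
    · rw [D'_mul_of, if_neg ht']
    · rw [hl]; push_cast; omega
    · rw [hl]; push_cast; omega
  have h3 : phi x y a = 0 := by
    have := hsnd (bw (u * FreeMonoid.of t')) (AddSubmonoid.subset_closure ⟨_, rfl⟩)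
    rw [h2, phi_of_D x y _ (hD _), add_zero] at this
    exact this.symm
  -- the first test element
  have h4 : ∃ b ∈ AddSubmonoid.closure (Set.range (bw (N := N) (F := F))), D x y b = 0 ∧
      phi x y (b + a) = - a.coeff (FreeMonoid.of y * w) := by
    have hux : KK.Le ((u.length : ℤ) + 1) (MN.single (wd (u * FreeMonoid.of x)) (1 : F)) := by
      have := KK.Le.single (wd (u * FreeMonoid.of x)) (1 : F)
      rw [wd_n, FreeMonoid.length_mul, FreeMonoid.length_of] at this
      push_cast at this
      exact this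
    rcases hx with h | ⟨v, z, h, hz⟩
    · refine ⟨bw (u * FreeMonoid.of x), AddSubmonoid.subset_closure ⟨_, rfl⟩, hD _, ?_⟩
      refine comp1 x y a _ u w 0 (hD _) ?_ ?_ (KK.Le.zero _) hDa (hda.mono ?_) (hD'a.mono ?_)
      · rw [D'_mul_of, if_pos rfl]
      · rw [del_bw, h, mul_one, add_zero]
      · rw [hul]; push_cast; omega
      · rw [hul]; push_cast; omega
    · refine ⟨bw (u * (FreeMonoid.of x * w)) + bw (u * FreeMonoid.of x),
        add_mem (AddSubmonoid.subset_closure ⟨_, rfl⟩) (AddSubmonoid.subset_closure ⟨_, rfl⟩),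
        by rw [D_add, hD, hD, add_zero], ?_⟩
      refine comp1 x y a _ u w (MN.single (wd (u * FreeMonoid.of x)) 1)
        (by rw [D_add, hD, hD, add_zero]) ?_ ?_ (hux.mono ?_) hDa (hda.mono ?_) (hD'a.mono ?_)
      · rw [D'_add, D'_mul_of, if_pos rfl, h, ← mul_assoc, ← mul_assoc, D'_mul_of, if_neg hz,
          zero_add]
      · rw [map_add, del_bw, del_bw, mul_assoc u]
      · have : 1 ≤ w.length := by
          rw [h, FreeMonoid.length_mul, FreeMonoid.length_of]; omega
        omega
      · rw [hul]; push_cast; omega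
      · rw [hul]; push_cast; omega
  obtain ⟨b, hb, hDb, hphi⟩ := h4
  have := hsnd b hb
  rw [hphi, h3, phi_of_D x y b hDb, add_zero, neg_eq_zero] at this
  exact hc this

end Br

end Pool.Agent.Y56.BM
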