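import Mathlib

set_option autoImplicit false
set_option linter.unusedSectionVars false

namespace Pool.Agent.Y56.BM

open Set Function
open scoped Pointwise

section pwo

variable {G : Type*} [Group G] [LinearOrder G] [MulLeftMono G] [MulRightMono G]

theorem pwo_mul {S T : Set G} (hS : S.IsPWO) (hT : T.IsPWO) : (S * T).IsPWO := by
  rw [← image_mul_prod]
  exact (hS.prod hT).image_of_monotone (fun a b h => mul_le_mul' h.1 h.2)

theorem fin_pairs {S T : Set G} (hS : S.IsPWO) (hT : T.IsPWO) (x : G) :
    {a : G | a ∈ S ∧ a⁻¹ * x ∈ T}.Finite := by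
  by_contra h
  have hinf : {a : G | a ∈ S ∧ a⁻¹ * x ∈ T}.Infinite := h
  let e := hinf.natEmbedding
  have hS' := fun n => (e n).2.1
  have hT' := fun n => (e n).2.2
  obtain ⟨g, hg⟩ := hS.exists_monotone_subseq (f := fun n => ((e n : G))) hS'
  obtain ⟨m, n, hmn, hle⟩ := hT (fun n => ⟨((e (g n) : G))⁻¹ * x, hT' (g n)⟩)
  have h1 : ((e (g m) : G)) ≤ (e (g n) : G) := hg hmn.le
  have hle' : ((e (g m) : G))⁻¹ * x ≤ ((e (g n) : G))⁻¹ * x := hle
  have h2 : ((e (g m) : G))⁻¹ ≤ ((e (g n) : G))⁻¹ := by
    have := mul_le_mul_left hle' x⁻¹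
    simpa using this
  have h3 : (e (g n) : G) ≤ (e (g m) : G) := inv_le_inv_iff.mp h2
  have h4 : (e (g m) : G) = (e (g n) : G) := le_antisymm h1 h3
  have h5 : g m = g n := e.injective (Subtype.ext h4)
  exact hmn.ne (g.injective h5)

theorem pwo_closure {S : Set G} (hS : S.IsPWO) (hpos : ∀ x ∈ S, 1 ≤ x) :
    (Submonoid.closure S : Set G).IsPWO := by
  rw [Submonoid.closure_eq_image_prod]
  refine (hS.partiallyWellOrderedOn_sublistForall₂ (· ≤ ·)).image_of_monotone_on ?_
  exact fun l1 _ l2 hl2 h12 => h12.prod_le_prod' fun x hx => hpos x <| hl2 x hx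

end pwo

/-- Malcev-Neumann series: functions on an ordered group with well-ordered support. -/
structure MN (G : Type*) (F : Type*) [Group G] [LinearOrder G] [Field F] where
  c : G → F
  pwo : (Function.support c).IsPWO

namespace MN

variable {G : Type*} {F : Type*} [Group G] [LinearOrder G] [Field F]

@[ext] theorem ext' {f g : MN G F} (h : ∀ x, f.c x = g.c x) : f = g := by
  cases f; cases g; congr; funext x; exact h x

instance : Zero (MN G F) := ⟨⟨0, by simp⟩⟩
instance : Add (MN G F) := ⟨fun f g => ⟨f.c + g.c, (f.pwo.union g.pwo).mono (Function.support_add _ _)⟩⟩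
instance : Neg (MN G F) := ⟨fun f => ⟨-f.c, by rw [Function.support_neg]; exact f.pwo⟩⟩
instance : Sub (MN G F) := ⟨fun f g => ⟨f.c - g.c, (f.pwo.union g.pwo).mono (Function.support_sub _ _)⟩⟩
instance : SMul ℕ (MN G F) := ⟨fun n f => ⟨n • f.c, f.pwo.mono (Function.support_const_smul_subset n f.c)⟩⟩
instance : SMul ℤ (MN G F) := ⟨fun n f => ⟨n • f.c, f.pwo.mono (Function.support_const_smul_subset n f.c)⟩⟩

theorem c_inj : Function.Injective (MN.c : MN G F → G → F) := by
  intro f g h; cases f; cases g; congr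

instance : AddCommGroup (MN G F) :=
  Function.Injective.addCommGroup MN.c c_inj rfl (fun _ _ => rfl) (fun _ => rfl) (fun _ _ => rfl)
    (fun _ _ => rfl) (fun _ _ => rfl)

@[simp] theorem zero_c (x : G) : (0 : MN G F).c x = 0 := rfl
@[simp] theorem add_c (f g : MN G F) (x : G) : (f + g).c x = f.c x + g.c x := rfl
@[simp] theorem neg_c (f : MN G F) (x : G) : (-f).c x = - f.c x := rfl
@[simp] theorem sub_c (f g : MN G F) (x : G) : (f - g).c x = f.c x - g.c x := rfl

/-- monomial -/
def single (g : G) (r : F) : MN G F :=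
  ⟨Pi.single g r, (Set.subsingleton_singleton.isPWO (s := {g})).mono (by
    intro x hx
    rw [Function.mem_support] at hx
    by_contra hne
    apply hx
    have hne' : x ≠ g := hne
    simp [hne'])⟩

@[simp] theorem single_same (g : G) (r : F) : (single g r).c g = r := by
  simp [single]

theorem single_ne (g x : G) (r : F) (h : x ≠ g) : (single g r).c x = 0 := by
  simp [single, Pi.single_eq_of_ne h]

theorem ex_of_finsum {α : Type*} {f : α → F} (h : ∑ᶠ a, f a ≠ 0) : ∃ a, f a ≠ 0 := by
  by_contra hc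
  exact h (finsum_eq_zero_of_forall_eq_zero fun x => by
    by_contra hx
    exact hc ⟨x, hx⟩)

variable [MulLeftMono G] [MulRightMono G]

theorem fin_mul (f g : MN G F) (x : G) : (Function.support fun a => f.c a * g.c (a⁻¹ * x)).Finite := by
  refine (fin_pairs f.pwo g.pwo x).subset ?_
  intro a ha
  rw [Function.mem_support] at ha
  exact ⟨left_ne_zero_of_mul ha, right_ne_zero_of_mul ha⟩

noncomputable instance : Mul (MN G F) := ⟨fun f g =>
  ⟨fun x => ∑ᶠ a : G, f.c a * g.c (a⁻¹ * x), by
    refine (pwo_mul f.pwo g.pwo).mono ?_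
    intro x hx
    rw [Function.mem_support] at hx
    obtain ⟨a, ha⟩ := ex_of_finsum hx
    exact ⟨a, left_ne_zero_of_mul ha, a⁻¹ * x, right_ne_zero_of_mul ha, by simp⟩⟩⟩

theorem mul_c (f g : MN G F) (x : G) : (f * g).c x = ∑ᶠ a : G, f.c a * g.c (a⁻¹ * x) := rfl

theorem supp_mul (f g : MN G F) : Function.support (f * g).c ⊆
    Function.support f.c * Function.support g.c := by
  intro x hx
  rw [Function.mem_support] at hx
  obtain ⟨a, ha⟩ := ex_of_finsum hx
  exact ⟨a, left_ne_zero_of_mul ha, a⁻¹ * x, right_ne_zero_of_mul ha, by simp⟩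

noncomputable instance : One (MN G F) := ⟨single 1 1⟩

theorem one_def : (1 : MN G F) = single 1 1 := rfl

theorem single_mul_c (g : G) (r : F) (f : MN G F) (x : G) :
    (single g r * f).c x = r * f.c (g⁻¹ * x) := by
  rw [mul_c, finsum_eq_single _ g]
  · simp
  · intro a ha
    rw [single_ne _ _ _ ha, zero_mul]

theorem mul_single_c (g : G) (r : F) (f : MN G F) (x : G) :
    (f * single g r).c x = f.c (x * g⁻¹) * r := by
  rw [mul_c, finsum_eq_single _ (x * g⁻¹)]
  · have : (x * g⁻¹)⁻¹ * x = g := by group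
    rw [this]; simp
  · intro a ha
    rw [single_ne, mul_zero]
    intro h
    apply ha
    rw [← h]; group

theorem mul_assoc' (f g h : MN G F) : f * g * h = f * (g * h) := by
  ext x
  rw [mul_c, mul_c]
  have hfin : (Function.support fun p : G × G => f.c p.1 * g.c (p.1⁻¹ * p.2) * h.c (p.2⁻¹ * x)).Finite := by
    have h1 := fin_pairs (pwo_mul f.pwo g.pwo) h.pwo x
    have h2 : ∀ b : G, {a : G | a ∈ Function.support f.c ∧ a⁻¹ * b ∈ Function.support g.c}.Finite :=
      fun b => fin_pairs f.pwo g.pwo b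
    refine (Set.Finite.biUnion h1 (fun b _ => (h2 b).image (fun a => (a, b)))).subset ?_
    rintro ⟨a, b⟩ hab
    rw [Function.mem_support] at hab
    have ha : f.c a ≠ 0 := left_ne_zero_of_mul (left_ne_zero_of_mul hab)
    have hb : g.c (a⁻¹ * b) ≠ 0 := right_ne_zero_of_mul (left_ne_zero_of_mul hab)
    have hc : h.c (b⁻¹ * x) ≠ 0 := right_ne_zero_of_mul hab
    simp only [Set.mem_iUnion]
    exact ⟨b, ⟨⟨a, ha, a⁻¹ * b, hb, by simp⟩, hc⟩, a, ⟨ha, hb⟩, rfl⟩
  have e1 : ∀ b : G, (f * g).c b * h.c (b⁻¹ * x) =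
      ∑ᶠ a : G, f.c a * g.c (a⁻¹ * b) * h.c (b⁻¹ * x) := by
    intro b
    rw [mul_c, finsum_mul' _ _ (fin_mul f g b)]
  have e2 : ∀ a : G, f.c a * (g * h).c (a⁻¹ * x) =
      ∑ᶠ b : G, f.c a * g.c (a⁻¹ * b) * h.c (b⁻¹ * x) := by
    intro a
    rw [mul_c, mul_finsum' _ _ (fin_mul g h _)]
    symm
    rw [← finsum_comp_equiv (Equiv.mulLeft a)]
    apply finsum_congr
    intro b
    simp only [Equiv.coe_mulLeft]
    rw [inv_mul_cancel_left, mul_inv_rev, mul_assoc, mul_assoc]
  simp_rw [e1, e2]
  rw [← finsum_curry _ hfin]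
  have hfin' : (Function.support fun p : G × G =>
      f.c p.2 * g.c (p.2⁻¹ * p.1) * h.c (p.1⁻¹ * x)).Finite := by
    refine (hfin.image Prod.swap).subset ?_
    rintro ⟨b, a⟩ hab
    exact ⟨(a, b), hab, rfl⟩
  rw [← finsum_curry _ hfin', ← finsum_comp_equiv (Equiv.prodComm G G)]
  rfl

noncomputable instance : Ring (MN G F) :=
  { (inferInstance : AddCommGroup (MN G F)) with
    mul := (· * ·)
    one := 1
    mul_assoc := mul_assoc'
    left_distrib := by
      intro f g h
      ext x
      rw [add_c, mul_c, mul_c, mul_c, ← finsum_add_distrib (fin_mul f g x) (fin_mul f h x)]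
      apply finsum_congr
      intro a
      rw [add_c, mul_add]
    right_distrib := by
      intro f g h
      ext x
      rw [add_c, mul_c, mul_c, mul_c, ← finsum_add_distrib (fin_mul f h x) (fin_mul g h x)]
      apply finsum_congr
      intro a
      rw [add_c, add_mul]
    zero_mul := by
      intro f
      ext x
      rw [mul_c]
      simp
    mul_zero := by
      intro f
      ext x
      rw [mul_c]
      simp
    one_mul := by
      intro f
      ext x
      rw [one_def, single_mul_c]
      simp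
    mul_one := by
      intro f
      ext x
      rw [one_def, mul_single_c]
      simp }

theorem single_mul_single (g h : G) (r s : F) : single g r * single h s = single (g * h) (r * s) := by
  ext x
  rw [single_mul_c]
  by_cases hx : x = g * h
  · subst hx
    simp
  · rw [single_ne _ x _ hx, single_ne, mul_zero]
    intro h'
    apply hx
    rw [← h']; group


theorem supp_pow (y : MN G F) (n : ℕ) : Function.support (y ^ n).c ⊆
    (Submonoid.closure (Function.support y.c) : Set G) := by
  induction n with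
  | zero =>
    intro x hx
    rw [pow_zero, one_def, Function.mem_support] at hx
    by_cases h : x = 1
    · subst h; exact one_mem _
    · exact absurd (single_ne _ _ _ h) hx
  | succ n ih =>
    rw [pow_succ]
    intro x hx
    obtain ⟨a, ha, b, hb, hab⟩ := supp_mul _ _ hx
    rw [← hab]
    exact mul_mem (ih ha) (Submonoid.subset_closure hb)

theorem nilp (y : MN G F) (hy : ∀ x, y.c x ≠ 0 → 1 < x) (x : G) :
    {n : ℕ | (y ^ n).c x ≠ 0}.Finite := by
  have hM : (Submonoid.closure (Function.support y.c) : Set G).IsPWO :=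
    pwo_closure y.pwo (fun x hx => (hy x hx).le)
  by_cases hx : x ∈ (Submonoid.closure (Function.support y.c) : Set G)
  swap
  · refine Set.finite_empty.subset ?_
    intro n hn
    exact hx (supp_pow y n hn)
  · have hwf := hM.isWF
    revert hx
    refine fun hx => Set.WellFoundedOn.induction (P := fun x => {n : ℕ | (y ^ n).c x ≠ 0}.Finite) hwf hx ?_
    intro x hx ih
    have hfin := fin_pairs y.pwo hM x
    have key : {n : ℕ | (y ^ n).c x ≠ 0} ⊆ {0} ∪
        ⋃ a ∈ {a : G | a ∈ Function.support y.c ∧ a⁻¹ * x ∈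
          (Submonoid.closure (Function.support y.c) : Set G)},
          Nat.succ '' {n : ℕ | (y ^ n).c (a⁻¹ * x) ≠ 0} := by
      intro n hn
      rcases n with _ | n
      · left; rfl
      · right
        rw [Set.mem_ofPred_eq, pow_succ', mul_c] at hn
        obtain ⟨a, ha⟩ := ex_of_finsum hn
        have h1 : y.c a ≠ 0 := left_ne_zero_of_mul ha
        have h2 : (y ^ n).c (a⁻¹ * x) ≠ 0 := right_ne_zero_of_mul ha
        simp only [Set.mem_iUnion]
        exact ⟨a, ⟨h1, supp_pow y n h2⟩, n, h2, rfl⟩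
    refine Set.Finite.subset ?_ key
    refine (Set.finite_singleton 0).union (hfin.biUnion ?_)
    intro a ha
    refine Set.Finite.image _ (ih _ ha.2 ?_)
    have h1 : 1 < a := hy a ha.1
    calc a⁻¹ * x < 1 * x := by
          apply mul_lt_mul_left
          exact Left.inv_lt_one_iff.mpr h1
      _ = x := one_mul x

theorem ex_inv_one_sub (y : MN G F) (hy : ∀ x, y.c x ≠ 0 → 1 < x) :
    ∃ z : MN G F, (1 - y) * z = 1 := by
  have hM : (Submonoid.closure (Function.support y.c) : Set G).IsPWO :=
    pwo_closure y.pwo (fun x hx => (hy x hx).le)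
  have hN : ∀ x : G, ∃ N : ℕ, ∀ n, N ≤ n → (y ^ n).c x = 0 := by
    intro x
    obtain ⟨N, hN⟩ := (nilp y hy x).bddAbove
    refine ⟨N + 1, fun n hn => ?_⟩
    by_contra h
    have := hN h
    omega
  choose N hN using hN
  have hsumc : ∀ (K : ℕ) (x : G), (∑ n ∈ Finset.range K, y ^ n).c x =
      ∑ n ∈ Finset.range K, (y ^ n).c x := by
    intro K x
    induction K with
    | zero => simp
    | succ K ih => rw [Finset.sum_range_succ, Finset.sum_range_succ, add_c, ih]
  let z : MN G F := ⟨fun x => ∑ n ∈ Finset.range (N x), (y ^ n).c x, by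
    refine hM.mono ?_
    intro x hx
    rw [Function.mem_support] at hx
    obtain ⟨n, _, hn⟩ := Finset.exists_ne_zero_of_sum_ne_zero hx
    exact supp_pow y n hn⟩
  have hz : ∀ (x : G) (K : ℕ), N x ≤ K → z.c x = (∑ n ∈ Finset.range K, y ^ n).c x := by
    intro x K hK
    rw [hsumc]
    change ∑ n ∈ Finset.range (N x), (y ^ n).c x = _
    apply Finset.sum_subset (Finset.range_mono hK)
    intro n _ hn
    exact hN x n (by simpa using hn)
  have hz0 : ∀ (x : G), x ∉ (Submonoid.closure (Function.support y.c) : Set G) → ∀ K : ℕ,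
      (∑ n ∈ Finset.range K, y ^ n).c x = 0 := by
    intro x hx K
    rw [hsumc]
    apply Finset.sum_eq_zero
    intro n _
    by_contra h
    exact hx (supp_pow y n h)
  refine ⟨z, ?_⟩
  ext x
  have hfin := fin_pairs (1 - y).pwo hM x
  -- a bound valid at all relevant points
  have hK : ∃ K : ℕ, N x ≤ K ∧ ∀ a ∈ {a : G | a ∈ Function.support (1 - y).c ∧ a⁻¹ * x ∈
      (Submonoid.closure (Function.support y.c) : Set G)}, N (a⁻¹ * x) ≤ K := by
    obtain ⟨K, hK⟩ := (hfin.image (fun a => N (a⁻¹ * x))).bddAbove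
    refine ⟨max (N x) K, le_max_left _ _, fun a ha => le_trans (hK ⟨a, ha, rfl⟩) (le_max_right _ _)⟩
  obtain ⟨K, hK1, hK2⟩ := hK
  have e1 : ((1 - y) * z).c x = ((1 - y) * (∑ n ∈ Finset.range K, y ^ n)).c x := by
    rw [mul_c, mul_c]
    apply finsum_congr
    intro a
    by_cases ha : (1 - y).c a = 0
    · rw [ha, zero_mul, zero_mul]
    · by_cases hax : a⁻¹ * x ∈ (Submonoid.closure (Function.support y.c) : Set G)
      · rw [hz _ K (hK2 a ⟨ha, hax⟩)]
      · rw [hz _ (N (a⁻¹ * x)) le_rfl, hz0 _ hax, hz0 _ hax]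
  rw [e1, mul_neg_geom_sum, sub_c, hN x K hK1, sub_zero]

theorem ex_lead (f : MN G F) (hf : f ≠ 0) : ∃ g : G, f.c g ≠ 0 ∧ ∀ x, x < g → f.c x = 0 := by
  have hne : (Function.support f.c).Nonempty := by
    by_contra h
    apply hf
    ext x
    by_contra hx
    exact h ⟨x, hx⟩
  refine ⟨f.pwo.isWF.min hne, f.pwo.isWF.min_mem hne, fun x hx => ?_⟩
  by_contra h
  exact f.pwo.isWF.not_lt_min hne h hx

theorem ex_inv (f : MN G F) (hf : f ≠ 0) : ∃ z : MN G F, f * z = 1 := by
  obtain ⟨g, hg, hlt⟩ := ex_lead f hf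
  set y : MN G F := 1 - single g⁻¹ (f.c g)⁻¹ * f with hy
  have hyc : ∀ x, y.c x ≠ 0 → 1 < x := by
    intro x hx
    rw [hy, sub_c, single_mul_c, inv_inv] at hx
    by_contra h
    rw [not_lt] at h
    apply hx
    rcases h.eq_or_lt with h | h
    · subst h
      rw [one_def, single_same, mul_one, inv_mul_cancel₀ hg, sub_self]
    · have : g * x < g := by
        calc g * x < g * 1 := mul_lt_mul_right h g
          _ = g := mul_one g
      rw [hlt _ this, one_def, single_ne _ _ _ h.ne, mul_zero, sub_zero]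
  obtain ⟨z, hz⟩ := ex_inv_one_sub y hyc
  refine ⟨z * single g⁻¹ (f.c g)⁻¹, ?_⟩
  have h1 : f = single g (f.c g) * (1 - y) := by
    rw [hy, sub_sub_cancel, ← mul_assoc, single_mul_single, mul_inv_cancel, mul_inv_cancel₀ hg,
      ← one_def, one_mul]
  calc f * (z * single g⁻¹ (f.c g)⁻¹) = single g (f.c g) * ((1 - y) * z) * single g⁻¹ (f.c g)⁻¹ := by
        rw [← mul_assoc, ← mul_assoc, ← h1]
    _ = 1 := by
        rw [hz, mul_one, single_mul_single, mul_inv_cancel, mul_inv_cancel₀ hg, ← one_def]


theorem one_ne_zero' : (1 : MN G F) ≠ 0 := by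
  intro h
  have h1 : (1 : MN G F).c 1 = (0 : MN G F).c 1 := by rw [h]
  rw [one_def, single_same, zero_c] at h1
  exact one_ne_zero h1

open Classical in
noncomputable def invFun (f : MN G F) : MN G F :=
  if h : f = 0 then 0 else (ex_inv f h).choose

theorem mul_invFun (f : MN G F) (hf : f ≠ 0) : f * invFun f = 1 := by
  rw [invFun, dif_neg hf]
  exact (ex_inv f hf).choose_spec

noncomputable instance : DivisionRing (MN G F) :=
  { (inferInstance : Ring (MN G F)) with
    inv := invFun
    exists_pair_ne := ⟨1, 0, one_ne_zero'⟩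
    mul_inv_cancel := mul_invFun
    inv_zero := by
      change invFun 0 = 0
      rw [invFun, dif_pos rfl]
    nnqsmul := _
    nnqsmul_def := fun _ _ => rfl
    qsmul := _
    qsmul_def := fun _ _ => rfl }


/-- constants -/
noncomputable def C : F →+* MN G F where
  toFun r := single 1 r
  map_one' := rfl
  map_mul' r s := by rw [single_mul_single, mul_one]
  map_zero' := by
    ext x
    by_cases h : x = 1
    · subst h; simp
    · rw [single_ne _ _ _ h]; rfl
  map_add' r s := by
    ext x
    by_cases h : x = 1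
    · subst h; simp
    · rw [add_c, single_ne _ _ _ h, single_ne _ _ _ h, single_ne _ _ _ h, add_zero]

theorem C_mul_c (r : F) (f : MN G F) (x : G) : (C r * f).c x = r * f.c x := by
  change (single 1 r * f).c x = _
  rw [single_mul_c]; simp

theorem mul_C_c (r : F) (f : MN G F) (x : G) : (f * C r).c x = f.c x * r := by
  change (f * single 1 r).c x = _
  rw [mul_single_c]; simp

noncomputable instance : Algebra F (MN G F) := RingHom.toAlgebra' C (by
  intro r f
  ext x
  rw [C_mul_c, mul_C_c, mul_comm])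

theorem algebraMap_def (r : F) : algebraMap F (MN G F) r = C r := rfl

theorem smul_c (r : F) (f : MN G F) (x : G) : (r • f).c x = r * f.c x := by
  rw [Algebra.smul_def, algebraMap_def, C_mul_c]

end MN

end Pool.Agent.Y56.BM
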