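import Pool.Agent.Y56.BM.Br

set_option autoImplicit false
set_option linter.unusedSectionVars false
set_option linter.unusedVariables false

namespace Pool.Agent.Y56.BM

open MN

namespace Br

variable {N : ℕ} {F : Type*} [Field F] (x y : Fin (N + 2))

theorem deg_bound (a : R0 N F) : ∃ d : ℕ, ∀ w, a.coeff w ≠ 0 → (wd w).n ≤ d := by
  refine ⟨a.coeff.support.sup FreeMonoid.length, fun w hw => ?_⟩
  rw [wd_n]
  exact_mod_cast Finset.le_sup (f := FreeMonoid.length) (by simpa using hw)

/-- the key degree estimates -/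
theorem key_le (a : R0 N F) (ha : a ≠ 0) : ∃ d : ℤ, del a ≠ 0 ∧ KK.Le (-d) (del a)⁻¹ ∧
    KK.Le (d - 1) (D x y a) ∧ KK.Le (d - 1) (D' x y a) := by
  have hne : del a ≠ 0 := by
    intro h
    apply ha
    apply MonoidAlgebra.coeff_injective
    ext w
    have := del_coeff a w
    rw [h] at this
    simp at this
    simpa using this.symm
  obtain ⟨g, hg, hlt⟩ := ex_lead (del a) hne
  have hsupp : ∀ w, a.coeff w ≠ 0 → (wd w).n ≤ g.n := by
    intro w hw
    have h1 : (del a).c (wd w) ≠ 0 := by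
      rw [del_coeff]
      exact hw
    have h2 : g ≤ wd w := by
      by_contra h
      exact h1 (hlt _ (not_le.mp h))
    exact Aff.n_anti h2
  refine ⟨g.n, hne, KK.Le.inv hg hlt, ?_, D'_le x y a _ hsupp⟩
  apply D_le
  intro w hw
  have := hsupp _ hw
  rw [wd_of_mul, Aff.mul_n] at this
  simp only [letter] at this
  omega

/-- the quasideterminant type expression -/
noncomputable def Phi (a : R0 N F) : KK N F := T x y a - D x y a * (del a)⁻¹ * D' x y a

theorem Phi_zero : Phi x y (0 : R0 N F) = 0 := by simp [Phi, T, D]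
theorem Phi_one : Phi x y (1 : R0 N F) = 0 := by simp [Phi, T_one, D_one]

theorem am_mul_c (r : F) (f : KK N F) (g : Aff N) :
    (algebraMap F (KK N F) r * f).c g = r * f.c g := by
  rw [← Algebra.smul_def, smul_c]

theorem Phi_mul (a b : R0 N F) (ha : a ≠ 0) (hb : b ≠ 0) :
    Phi x y (a * b) = algebraMap F (KK N F) (eps a) * Phi x y b +
      algebraMap F (KK N F) (eps b) * Phi x y a -
      algebraMap F (KK N F) (eps a) * (algebraMap F (KK N F) (eps b) *
        ((D x y b * (del b)⁻¹) * ((del a)⁻¹ * D' x y a))) := by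
  obtain ⟨_, hA, _⟩ := key_le x y a ha
  obtain ⟨_, hB, _⟩ := key_le x y b hb
  have c1 : ∀ z : KK N F, z * algebraMap F (KK N F) (eps b) = algebraMap F (KK N F) (eps b) * z :=
    fun z => (Algebra.commutes _ _).symm
  rw [Phi, T_mul, D_mul, D'_mul, map_mul, mul_inv_rev, c1, c1]
  have e : (algebraMap F (KK N F) (eps a) * D x y b + D x y a * del b) * ((del b)⁻¹ * (del a)⁻¹) *
      (del a * D' x y b + algebraMap F (KK N F) (eps b) * D' x y a) =
      algebraMap F (KK N F) (eps a) * (D x y b * (del b)⁻¹ * D' x y b) + D x y a * D' x y b +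
      algebraMap F (KK N F) (eps b) * (D x y a * (del a)⁻¹ * D' x y a) +
      algebraMap F (KK N F) (eps a) * (algebraMap F (KK N F) (eps b) *
        ((D x y b * (del b)⁻¹) * ((del a)⁻¹ * D' x y a))) := by
    rw [← c1, ← c1 (D x y a * (del a)⁻¹ * D' x y a),
      ← c1 ((D x y b * (del b)⁻¹) * ((del a)⁻¹ * D' x y a))]
    simp only [mul_add, add_mul, mul_assoc, mul_inv_cancel_left₀ hB, inv_mul_cancel_left₀ hA]
    abel
  rw [e, Phi, Phi, mul_sub, mul_sub]
  abel

/-- the exotic function -/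
noncomputable def phi (a : R0 N F) : F := (Phi x y a).c (g0 x)

theorem phi_mul (a b : R0 N F) : phi x y (a * b) = eps a * phi x y b + eps b * phi x y a := by
  unfold phi
  by_cases ha : a = 0
  · subst ha; simp [Phi_zero]
  by_cases hb : b = 0
  · subst hb; simp [Phi_zero]
  obtain ⟨d, hA, hA1, hA2, hA3⟩ := key_le x y a ha
  obtain ⟨d', hB, hB1, hB2, hB3⟩ := key_le x y b hb
  have h0 : ((D x y b * (del b)⁻¹) * ((del a)⁻¹ * D' x y a)).c (g0 x) = 0 :=
    c_g0 x (((hB2.mul hB1).mul (hA1.mul hA3)).mono (by omega))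
  rw [Phi_mul x y a b ha hb, sub_c, add_c, am_mul_c, am_mul_c, am_mul_c, am_mul_c, h0]
  simp

theorem phi_one_add (a : R0 N F) : phi x y (1 + a) = phi x y a := by
  unfold phi
  by_cases ha : a = 0
  · subst ha; rw [add_zero, Phi_one, Phi_zero]
  by_cases hb : 1 + a = 0
  · have h1 : D x y a = 0 := by
      have := D_add x y 1 a
      rw [hb, D_one, zero_add] at this
      rw [← this]; simp [D]
    have h2 : T x y a = 0 := by
      have := T_add x y 1 a
      rw [hb, T_one, zero_add] at this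
      rw [← this]; simp [T]
    rw [hb, Phi_zero, Phi, h1, h2]; simp
  obtain ⟨d, hA, hA1, hA2, hA3⟩ := key_le x y a ha
  obtain ⟨d', hB, hB1, hB2, hB3⟩ := key_le x y (1 + a) hb
  have e1 : D x y (1 + a) = D x y a := by rw [D_add, D_one, zero_add]
  have e2 : D' x y (1 + a) = D' x y a := by rw [D'_add, D'_one, zero_add]
  have e3 : T x y (1 + a) = T x y a := by rw [T_add, T_one, zero_add]
  have e4 : del (1 + a) = 1 + del a := by rw [map_add, map_one]
  have e5 : (del a)⁻¹ - (del (1 + a))⁻¹ = (del a)⁻¹ * (del (1 + a))⁻¹ := by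
    have h1 : (del a)⁻¹ * (del (1 + a) - del a) * (del (1 + a))⁻¹ =
        (del a)⁻¹ - (del (1 + a))⁻¹ := by
      rw [mul_sub, sub_mul, mul_assoc, mul_inv_cancel₀ hB, mul_one, inv_mul_cancel₀ hA, one_mul]
    rw [← h1, e4, add_sub_cancel_right, mul_one]
  have e6 : Phi x y (1 + a) - Phi x y a =
      (D x y a * (del a)⁻¹) * ((del (1 + a))⁻¹ * D' x y (1 + a)) := by
    rw [Phi, Phi, e1, e3]
    have : (D x y a * (del a)⁻¹) * ((del (1 + a))⁻¹ * D' x y (1 + a)) =
        D x y a * ((del a)⁻¹ * (del (1 + a))⁻¹) * D' x y (1 + a) := by simp only [mul_assoc]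
    rw [this, ← e5, e2, mul_sub, sub_mul]
    abel
  have h : (Phi x y (1 + a) - Phi x y a).c (g0 x) = 0 := by
    rw [e6]
    exact c_g0 x (((hA2.mul hA1).mul (hB1.mul hB3)).mono (by omega))
  rw [sub_c] at h
  exact sub_eq_zero.mp h

theorem phi_eq (a : R0 N F) : phi x y a = -(D x y a * (del a)⁻¹ * D' x y a).c (g0 x) := by
  rw [phi, Phi, sub_c, T_c, zero_sub]

/-- the exotic brachymorphism -/
noncomputable def E (a : R0 N F) : DualNumber F :=
  TrivSqZeroExt.inl (eps a) + TrivSqZeroExt.inr (phi x y a)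

theorem E_snd (a : R0 N F) : (E x y a).snd = phi x y a := by
  simp [E]

theorem E_mul (a b : R0 N F) : E x y (a * b) = E x y a * E x y b := by
  ext
  · simp [E]
  · simp only [E, TrivSqZeroExt.snd_add, TrivSqZeroExt.snd_inl, TrivSqZeroExt.snd_inr, zero_add,
      TrivSqZeroExt.snd_mul, TrivSqZeroExt.fst_add, TrivSqZeroExt.fst_inl, TrivSqZeroExt.fst_inr,
      add_zero, phi_mul]
    simp [mul_comm]

theorem E_one_add (a : R0 N F) : E x y (1 + a) = 1 + E x y a := by
  ext
  · simp [E]
  · simp [E, phi_one_add]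

/-- the inverse of an element with a large leading monomial -/
theorem lead_inv (h : Aff N) (ρ : KK N F) (hρ : KK.Le (h.n - 1) ρ) :
    single h 1 + ρ ≠ 0 ∧ KK.Le (-h.n) (single h 1 + ρ)⁻¹ := by
  have h1 : (single h 1 + ρ).c h ≠ 0 := by
    have : ρ.c h = 0 := by
      by_contra h'
      have := hρ h h'
      omega
    rw [add_c, this, single_same, add_zero]
    exact one_ne_zero
  have h2 : ∀ z, z < h → (single h 1 + ρ).c z = 0 := by
    intro z hz
    have : ρ.c z = 0 := by
      by_contra h'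
      have h3 := hρ z h'
      have h4 := Aff.n_anti hz.le
      omega
    rw [add_c, this, single_ne _ _ _ hz.ne, add_zero]
  refine ⟨fun h0 => h1 (by rw [h0]; rfl), KK.Le.inv h1 h2⟩

/-- first computation -/
theorem comp1 (a m : R0 N F) (u w : W N) (ρ : KK N F) (hD : D x y m = 0)
    (hD' : D' x y m = single (wd u) 1) (hdel : del m = single (wd (u * FreeMonoid.of x * w)) 1 + ρ)
    (hρ : KK.Le (u.length + w.length) ρ) (ha : KK.Le (w.length) (D x y a))
    (ha1 : KK.Le (u.length : ℤ) (del a)) (ha2 : KK.Le ((u.length : ℤ) - 1) (D' x y a)) :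
    phi x y (m + a) = - a.coeff (FreeMonoid.of y * w) := by
  have hn : (wd (u * FreeMonoid.of x * w)).n = u.length + 1 + w.length := by
    rw [wd_n, FreeMonoid.length_mul, FreeMonoid.length_mul, FreeMonoid.length_of]
    push_cast; ring
  set h : Aff N := wd (u * FreeMonoid.of x * w) with hh
  have hρ' : KK.Le (h.n - 1) (ρ + del a) := by
    rw [hn]
    exact (hρ.mono (by omega)).add (ha1.mono (by omega))
  obtain ⟨hne, hinv⟩ := lead_inv h (ρ + del a) hρ'
  rw [phi_eq, D_add, D'_add, map_add, hD, hD', hdel, zero_add, add_assoc]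
  set M : KK N F := single h 1 + (ρ + del a) with hM
  -- expansion of the inverse
  have hc : (single h (1 : F)) * single h⁻¹ 1 = 1 := by
    rw [single_mul_single, mul_inv_cancel, one_mul]; rfl
  have e1 : M⁻¹ = single h⁻¹ 1 - M⁻¹ * (ρ + del a) * single h⁻¹ 1 := by
    have e2 : M⁻¹ * M * single h⁻¹ 1 = single h⁻¹ 1 := by
      rw [inv_mul_cancel₀ hne, one_mul]
    have e3 : M⁻¹ * M * single h⁻¹ 1 = M⁻¹ + M⁻¹ * (ρ + del a) * single h⁻¹ 1 := by
      conv_lhs => rw [hM]
      rw [mul_add, add_mul, mul_assoc, hc, mul_one]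
    rw [eq_sub_iff_add_eq, ← e3, e2]
  have e4 : D x y a * M⁻¹ * (single (wd u) 1 + D' x y a) =
      D x y a * single h⁻¹ 1 * single (wd u) 1 + (D x y a * single h⁻¹ 1 * D' x y a -
        D x y a * (M⁻¹ * (ρ + del a) * single h⁻¹ 1) * (single (wd u) 1 + D' x y a)) := by
    conv_lhs => rw [e1]
    rw [mul_sub, sub_mul, mul_add]
    abel
  have hih : (h⁻¹).n = -((u.length : ℤ) + 1 + w.length) := by rw [Aff.inv_n, hn]
  have hsm : KK.Le (-2) (D x y a * single h⁻¹ 1 * D' x y a -
        D x y a * (M⁻¹ * (ρ + del a) * single h⁻¹ 1) * (single (wd u) 1 + D' x y a)) := by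
    apply KK.Le.sub
    · refine ((ha.mul (KK.Le.single h⁻¹ (1 : F))).mul ha2).mono ?_
      rw [hih]; omega
    · have hu : KK.Le (u.length : ℤ) (single (wd u) (1 : F) + D' x y a) := by
        refine KK.Le.add ?_ (ha2.mono (by omega))
        have := KK.Le.single (wd u) (1 : F)
        rwa [wd_n] at this
      by_cases hw : w.length = 0
      · -- the degree of `ρ + del a` is at most `u.length`
        have hr : KK.Le (u.length : ℤ) (ρ + del a) := by
          refine KK.Le.add (hρ.mono (by omega)) ha1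
        refine ((ha.mul ((hinv.mul hr).mul (KK.Le.single h⁻¹ (1 : F)))).mul hu).mono ?_
        rw [hih, hn]; omega
      · have hr : KK.Le ((u.length : ℤ) + w.length) (ρ + del a) := by
          refine KK.Le.add hρ (ha1.mono (by omega))
        refine ((ha.mul ((hinv.mul hr).mul (KK.Le.single h⁻¹ (1 : F)))).mul hu).mono ?_
        rw [hih, hn]; omega
  rw [e4, add_c, c_g0 x hsm, add_zero, mul_assoc, single_mul_single, mul_single_c, one_mul, mul_one]
  have e5 : g0 x * (h⁻¹ * wd u)⁻¹ = wd w := by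
    rw [hh, map_mul, map_mul, wd_of, g0]
    group
  rw [e5, D_coeff]

/-- second computation -/
theorem comp2 (a m : R0 N F) (v : W N) (d : ℤ) (hD : D x y m = 0)
    (hD' : D' x y m = 0) (hdel : del m = single (wd v) 1)
    (ha : KK.Le d (D x y a)) (ha1 : KK.Le ((v.length : ℤ) - 1) (del a))
    (ha2 : KK.Le ((v.length : ℤ) - d - 2) (D' x y a)) :
    phi x y (m + a) = 0 := by
  have hρ : KK.Le ((wd v).n - 1) (del a) := by rw [wd_n]; exact ha1
  obtain ⟨hne, hinv⟩ := lead_inv (wd v) (del a) hρ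
  rw [phi_eq, D_add, D'_add, map_add, hD, hD', hdel, zero_add, zero_add]
  rw [c_g0 x (((ha.mul hinv).mul ha2).mono (by rw [wd_n]; omega)), neg_zero]

theorem phi_of_D (m : R0 N F) (hD : D x y m = 0) : phi x y m = 0 := by
  rw [phi_eq, hD, zero_mul, zero_mul]
  simp

end Br

end Pool.Agent.Y56.BM
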