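import Pool.Agent.Y56.BM.Fi

set_option autoImplicit false
set_option linter.unusedSectionVars false
set_option linter.unusedVariables false

universe u v w

namespace Pool.Agent.Y56.BM

open MN

namespace Re

/-! ### the positive part -/

section pos

variable {R : Type*} {S : Type*} [Ring R] [Ring S] {f : R → S}

theorem map_zero' (hf : Brachy f) : f 0 = 0 := by
  have h1 : f 1 = 1 + f 0 := by
    have := hf.1 0
    rwa [add_zero] at this
  have h2 : f 0 = f 0 * f 0 := by
    have := hf.2 0 0
    rwa [zero_mul] at this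
  have h3 : f 0 = f 0 * f 1 := by
    have := hf.2 0 1
    rwa [mul_one] at this
  rw [h1, mul_add, mul_one, ← h2] at h3
  exact left_eq_add.mp h3

theorem map_one' (hf : Brachy f) : f 1 = 1 := by
  have := hf.1 0
  rwa [add_zero, map_zero' hf, add_zero] at this

theorem rob {A : Type*} [Ring A] (a b z : A) (h1 : a * z = z * a) (h2 : b * z = z * b) :
    (1 + a * z) * (1 + b * z) = 1 + (a * z + b * z) + z * z * (a * b) := by
  have e2 : a * z * (b * z) = z * z * (a * b) := by
    rw [h1, h2, mul_assoc z a, ← mul_assoc a z b, h1]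
    simp only [mul_assoc]
  rw [add_mul, one_mul, mul_add (a * z), mul_one, e2]
  abel

/-- brachymorphisms are additive on commuting pairs (Robinson's identity) -/
theorem comm_add (hf : Brachy f) (a b : R) (hab : Commute a b) : f (a + b) = f a + f b := by
  have key : ∀ a : R, Commute a b → (f (a + b) - f a - f b) * f (a + b) = 0 := by
    intro a hab
    have hz1 : Commute a (a + b) := (Commute.refl a).add_right hab
    have hz2 : Commute b (a + b) := hab.symm.add_right (Commute.refl b)
    obtain ⟨z, hz⟩ : ∃ z, z = a + b := ⟨_, rfl⟩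
    rw [← hz] at hz1 hz2 ⊢
    have hs : a * z + b * z = z * z := by rw [← add_mul, ← hz]
    have e1 : (1 + a * z) * (1 + b * z) = 1 + z * z * (1 + a * b) := by
      rw [rob a b z hz1.eq hz2.eq, hs, mul_add (z * z), mul_one]
      abel
    have e3 := congrArg f e1
    rw [hf.2, hf.1, hf.1, hf.1, hf.2, hf.2, hf.2, hf.2, hf.1, hf.2] at e3
    have c1 : f a * f z = f z * f a := by rw [← hf.2, ← hf.2, hz1.eq]
    have c2 : f b * f z = f z * f b := by rw [← hf.2, ← hf.2, hz2.eq]
    rw [rob (f a) (f b) (f z) c1 c2, mul_add (f z * f z), mul_one, ← add_assoc 1 (f z * f z)] at e3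
    have e5 : f a * f z + f b * f z = f z * f z := add_left_cancel (add_right_cancel e3)
    rw [sub_mul, sub_mul, sub_sub, e5, sub_self]
  have h1 := key a hab
  have h2 := key (1 + a) ((Commute.one_left b).add_left hab)
  rw [add_assoc, hf.1, hf.1, mul_add, mul_one] at h2
  have e8 : 1 + f (a + b) - (1 + f a) - f b = f (a + b) - f a - f b := by abel
  rw [e8, h1, add_zero, sub_sub] at h2
  exact sub_eq_zero.mp h2

theorem unit_add (hf : Brachy f) (a a' b : R) (h1 : a * a' = 1) : f (a + b) = f a + f b := by
  have e : a + b = a * (1 + a' * b) := by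
    rw [mul_add, mul_one, ← mul_assoc, h1, one_mul]
  rw [e, hf.2, hf.1, mul_add, mul_one, hf.2, ← mul_assoc, ← hf.2, h1, map_one' hf, one_mul]

theorem sub_one' (hf : Brachy f) (b : R) : f (b - 1) = f b - 1 := by
  have := hf.1 (b - 1)
  rw [add_sub_cancel] at this
  rw [this]; abel

theorem nilp_add (hf : Brachy f) (n b : R) (hn : IsNilpotent n) : f (n + b) = f n + f b := by
  obtain ⟨u, hu⟩ := hn.isUnit_one_add
  have e : n + b = (1 + n) + (b - 1) := by abel
  rw [e, unit_add hf (1 + n) (↑u⁻¹) (b - 1) (by rw [← hu]; exact u.mul_inv), hf.1, sub_one' hf]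
  abel

theorem pos_main (hf : Brachy f) (c n a b : R) (hc : ∀ r, Commute c r) (hn : IsNilpotent n)
    (ha : a = c + n) : f (a + b) = f a + f b := by
  rw [ha, show c + n + b = n + (c + b) by abel, add_comm c n, nilp_add hf _ _ hn,
    nilp_add hf _ _ hn, comm_add hf c b (hc b), add_assoc]

end pos

/-! ### nilpotent coefficients -/

section nil

variable {k : Type*} [CommRing k] {M : Type*} [Monoid M]

theorem coeff_mul_mem (I J : Ideal k) (p q : MonoidAlgebra k M) (hp : ∀ w, p.coeff w ∈ I)
    (hq : ∀ w, q.coeff w ∈ J) (w : M) : (p * q).coeff w ∈ I * J := by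
  classical
  have hsum : ∀ (ι : Type _) (s : Finset ι) (g : ι → MonoidAlgebra k M),
      (∀ i ∈ s, (g i).coeff w ∈ I * J) → (∑ i ∈ s, g i).coeff w ∈ I * J := by
    intro ι s g
    induction s using Finset.induction_on with
    | empty => intro _; simp
    | insert i s hi ih =>
      intro h
      rw [Finset.sum_insert hi, MonoidAlgebra.coeff_add, Finsupp.add_apply]
      exact add_mem (h i (Finset.mem_insert_self _ _))
        (ih fun j hj => h j (Finset.mem_insert_of_mem hj))
  have e : p * q = ∑ u ∈ p.coeff.support, ∑ v ∈ q.coeff.support,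
      MonoidAlgebra.single (u * v) (p.coeff u * q.coeff v) := by
    conv_lhs => rw [← MonoidAlgebra.sum_coeff_single p, ← MonoidAlgebra.sum_coeff_single q]
    rw [Finsupp.sum, Finsupp.sum, Finset.sum_mul]
    refine Finset.sum_congr rfl fun u _ => ?_
    rw [Finset.mul_sum]
    refine Finset.sum_congr rfl fun v _ => ?_
    rw [MonoidAlgebra.single_mul_single]
  rw [e]
  apply hsum
  intro u _
  apply hsum
  intro v _
  rw [MonoidAlgebra.coeff_single, Finsupp.single_apply]
  split_ifs
  · exact Ideal.mul_mem_mul (hp u) (hq v)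
  · exact zero_mem _

theorem nilp_of_coeff (p : MonoidAlgebra k M) (hp : ∀ w, IsNilpotent (p.coeff w)) :
    IsNilpotent p := by
  classical
  set I : Ideal k := Ideal.span (p.coeff.support.image p.coeff) with hI
  have hfg : I.FG := ⟨_, rfl⟩
  have hle : I ≤ nilradical k := by
    rw [hI, Ideal.span_le]
    intro r hr
    rw [Finset.mem_coe, Finset.mem_image] at hr
    obtain ⟨w, _, rfl⟩ := hr
    exact mem_nilradical.mpr (hp w)
  obtain ⟨n, hn⟩ := (Ideal.FG.isNilpotent_iff_le_nilradical hfg).mpr hle
  have hpI : ∀ w, p.coeff w ∈ I := by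
    intro w
    by_cases h : p.coeff w = 0
    · rw [h]; exact zero_mem _
    · exact Ideal.subset_span (by
        rw [Finset.mem_coe, Finset.mem_image]
        exact ⟨w, by simpa using h, rfl⟩)
  have hpow : ∀ m : ℕ, ∀ w, (p ^ m).coeff w ∈ I ^ m := by
    intro m
    induction m with
    | zero => intro w; rw [pow_zero (M := Ideal k), Ideal.one_eq_top]; exact Submodule.mem_top
    | succ m ih => intro w; rw [pow_succ, pow_succ]; exact coeff_mul_mem _ _ _ _ ih hpI w
  refine ⟨n, ?_⟩
  apply MonoidAlgebra.coeff_injective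
  ext w
  have := hpow n w
  rw [hn] at this
  simpa using this

end nil

end Re

end Pool.Agent.Y56.BM
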