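import Pool.Agent.Y56.BM.Re

set_option autoImplicit false
set_option linter.unusedSectionVars false
set_option linter.unusedVariables false

universe u v w

namespace Pool.Agent.Y56.BM

open MN

namespace Re

theorem Brachy.comp_hom {R R' S : Type*} [Ring R] [Ring R'] [Ring S] (f : R' → S) (hf : Brachy f)
    (g : R →+* R') : Brachy (fun a => f (g a)) := by
  refine ⟨fun a => ?_, fun a b => ?_⟩
  · change f (g (1 + a)) = 1 + f (g a)
    rw [map_add, map_one, hf.1]
  · change f (g (a * b)) = f (g a) * f (g b)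
    rw [map_mul, hf.2]

/-- reduction to finitely many letters over a field -/
theorem red (F : Type u) [Field F] (X : Type v) [Nontrivial X]
    (α : MonoidAlgebra F (FreeMonoid X)) (w0 : FreeMonoid X) (hw0 : w0 ≠ 1)
    (h0 : α.coeff w0 ≠ 0) :
    ∃ (N : ℕ) (θ : MonoidAlgebra F (FreeMonoid X) →+* Br.R0 N F),
      (∀ w : Br.W N, ∃ w' : FreeMonoid X, θ (MonoidAlgebra.single w' 1) = Br.bw w) ∧
      ∃ w : Br.W N, w ≠ 1 ∧ (θ α).coeff w ≠ 0 := by
  classical
  obtain ⟨x1, x2, hx⟩ := exists_pair_ne X
  set s : Finset X := {x1, x2} ∪ α.coeff.support.biUnion (fun w => w.toList.toFinset) with hs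
  have hcard : 2 ≤ s.card := by
    rw [← Finset.card_pair hx]
    exact Finset.card_le_card Finset.subset_union_left
  obtain ⟨N, hN⟩ : ∃ N, s.card = N + 2 := ⟨s.card - 2, by omega⟩
  let e : s ≃ Fin (N + 2) := s.equivFinOfCardEq hN
  let θ : MonoidAlgebra F (FreeMonoid X) →ₐ[F] Br.R0 N F :=
    MonoidAlgebra.lift F (Br.R0 N F) (FreeMonoid X)
      (FreeMonoid.lift fun z => if h : z ∈ s then Br.bw (FreeMonoid.of (e ⟨z, h⟩)) else 0)
  let ι : Br.R0 N F →ₐ[F] MonoidAlgebra F (FreeMonoid X) :=
    MonoidAlgebra.lift F (MonoidAlgebra F (FreeMonoid X)) (Br.W N)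
      (FreeMonoid.lift fun i => MonoidAlgebra.single (FreeMonoid.of (e.symm i : X)) 1)
  have hθ : ∀ z : X, ∀ hz : z ∈ s, θ (MonoidAlgebra.single (FreeMonoid.of z) 1) =
      Br.bw (FreeMonoid.of (e ⟨z, hz⟩)) := by
    intro z hz
    change MonoidAlgebra.lift _ _ _ _ _ = _
    rw [MonoidAlgebra.lift_single, one_smul, FreeMonoid.lift_eval_of, dif_pos hz]
  have hι : ∀ i : Fin (N + 2), ι (Br.bw (FreeMonoid.of i)) =
      MonoidAlgebra.single (FreeMonoid.of (e.symm i : X)) 1 := by
    intro i
    change MonoidAlgebra.lift _ _ _ _ _ = _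
    rw [Br.bw, MonoidAlgebra.lift_single, one_smul, FreeMonoid.lift_eval_of]
  have hιθ : ∀ v : FreeMonoid X, (∀ z ∈ v.toList, z ∈ s) →
      ι (θ (MonoidAlgebra.single v 1)) = MonoidAlgebra.single v 1 := by
    intro v
    induction v using FreeMonoid.recOn with
    | one =>
      intro _
      rw [← MonoidAlgebra.one_def, map_one, map_one]
    | of_mul z v ih =>
      intro h
      rw [FreeMonoid.toList_of_mul] at h
      have h1 := h z (by simp)
      have h2 := ih (fun t ht => h t (List.mem_cons_of_mem _ ht))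
      have e1 : (MonoidAlgebra.single (FreeMonoid.of z * v) 1 : MonoidAlgebra F (FreeMonoid X)) =
          MonoidAlgebra.single (FreeMonoid.of z) 1 * MonoidAlgebra.single v 1 := by
        rw [MonoidAlgebra.single_mul_single, one_mul]
      rw [e1, map_mul, map_mul, h2, hθ z h1, hι, Equiv.symm_apply_apply]
  refine ⟨N, θ.toRingHom, ?_, ?_⟩
  · intro w
    induction w using FreeMonoid.recOn with
    | one => exact ⟨1, by rw [← MonoidAlgebra.one_def, map_one]; rfl⟩
    | of_mul i w ih =>
      obtain ⟨w', hw'⟩ := ih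
      refine ⟨FreeMonoid.of (e.symm i : X) * w', ?_⟩
      have e1 : (MonoidAlgebra.single (FreeMonoid.of (e.symm i : X) * w') 1 :
          MonoidAlgebra F (FreeMonoid X)) =
          MonoidAlgebra.single (FreeMonoid.of (e.symm i : X)) 1 * MonoidAlgebra.single w' 1 := by
        rw [MonoidAlgebra.single_mul_single, one_mul]
      rw [e1, map_mul, hw', Br.bw_mul]
      congr 1
      have := hθ (e.symm i : X) (e.symm i).2
      rw [Subtype.coe_eta, Equiv.apply_symm_apply] at this
      exact this
  · by_contra hcon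
    push Not at hcon
    have h1 : θ α = (θ α).coeff 1 • 1 := by
      apply MonoidAlgebra.coeff_injective
      ext w
      by_cases hw : w = 1
      · subst hw
        simp [MonoidAlgebra.one_def]
      · have := hcon w hw
        change (θ α).coeff w = 0 at this
        rw [this]
        simp [MonoidAlgebra.one_def, Ne.symm hw]
    have h2 : ι (θ α) = α := by
      have e1 : α = ∑ w ∈ α.coeff.support, α.coeff w • MonoidAlgebra.single w (1 : F) := by
        conv_lhs => rw [← MonoidAlgebra.sum_coeff_single α]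
        rw [Finsupp.sum]
        refine Finset.sum_congr rfl fun w _ => ?_
        rw [MonoidAlgebra.smul_single, smul_eq_mul, mul_one]
      have e2 : ι (θ (∑ w ∈ α.coeff.support, α.coeff w • MonoidAlgebra.single w (1 : F))) =
          ∑ w ∈ α.coeff.support, α.coeff w • MonoidAlgebra.single w (1 : F) := by
        rw [map_sum, map_sum]
        refine Finset.sum_congr rfl fun w hw => ?_
        rw [map_smul, map_smul, hιθ]
        intro z hz
        rw [hs, Finset.mem_union, Finset.mem_biUnion]
        right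
        exact ⟨w, hw, by simpa using hz⟩
      rw [← e1] at e2
      exact e2
    rw [h1, map_smul, map_one ι] at h2
    apply h0
    rw [← h2]
    simp [MonoidAlgebra.one_def, Ne.symm hw0]

/-- The coefficients of an element of the free algebra. -/
noncomputable def coef {k : Type u} [CommRing k] {X : Type v} (a : FreeAlgebra k X)
    (w : FreeMonoid X) : k :=
  (FreeAlgebra.equivMonoidAlgebraFreeMonoid a : MonoidAlgebra k (FreeMonoid X)).coeff w

theorem neg_main (k : Type u) [CommRing k] (X : Type v) [Nontrivial X] (a : FreeAlgebra k X)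
    (w0 : FreeMonoid X) (hw0 : w0 ≠ 1) (h0 : ¬ IsNilpotent (coef a w0)) :
    ∃ (F : Type u) (_ : Field F) (f : FreeAlgebra k X → DualNumber F) (b : FreeAlgebra k X),
      Brachy f ∧ f (a + b) ≠ f a + f b := by
  classical
  rw [nilpotent_iff_mem_prime] at h0
  push Not at h0
  obtain ⟨p, hp, hpw⟩ := h0
  let F := FractionRing (k ⧸ p)
  let q : k →+* F := (algebraMap (k ⧸ p) F).comp (Ideal.Quotient.mk p)
  have hq : ∀ c, q c = 0 → c ∈ p := by
    intro c hc
    have h1 : (Ideal.Quotient.mk p) c = 0 :=
      (map_eq_zero_iff (algebraMap (k ⧸ p) F) (IsFractionRing.injective _ _)).mp hc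
    exact Ideal.Quotient.eq_zero_iff_mem.mp h1
  let ψ : FreeAlgebra k X →+* MonoidAlgebra F (FreeMonoid X) :=
    (MonoidAlgebra.mapRingHom (FreeMonoid X) q).comp
      (FreeAlgebra.equivMonoidAlgebraFreeMonoid : FreeAlgebra k X ≃ₐ[k] _).toRingEquiv.toRingHom
  have hψc : (ψ a).coeff w0 ≠ 0 := by
    intro h
    apply hpw
    apply hq
    rw [← h]
    change q (coef a w0) = (MonoidAlgebra.mapRingHom (FreeMonoid X) q _).coeff w0
    rw [MonoidAlgebra.coeff_mapRingHom]
    rfl
  obtain ⟨N, θ, hθ1, w, hw, hc⟩ := red F X (ψ a) w0 hw0 hψc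
  obtain ⟨x, y, b, hb, hne⟩ := Br.not_add (θ (ψ a)) w hw hc
  -- lift `b`
  have hlift : ∀ b ∈ AddSubmonoid.closure (Set.range (Br.bw (N := N) (F := F))),
      ∃ b' : FreeAlgebra k X, θ (ψ b') = b := by
    intro b hb
    induction hb using AddSubmonoid.closure_induction with
    | mem b hb =>
      obtain ⟨w, rfl⟩ := hb
      obtain ⟨w', hw'⟩ := hθ1 w
      refine ⟨FreeAlgebra.equivMonoidAlgebraFreeMonoid.symm (MonoidAlgebra.single w' 1), ?_⟩
      rw [← hw']
      congr 1
      change MonoidAlgebra.mapRingHom (FreeMonoid X) q (FreeAlgebra.equivMonoidAlgebraFreeMonoid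
        (FreeAlgebra.equivMonoidAlgebraFreeMonoid.symm _)) = _
      rw [AlgEquiv.apply_symm_apply, MonoidAlgebra.mapRingHom_single, map_one]
    | zero => exact ⟨0, by rw [map_zero, map_zero]⟩
    | add b c _ _ ihb ihc =>
      obtain ⟨b', rfl⟩ := ihb
      obtain ⟨c', rfl⟩ := ihc
      exact ⟨b' + c', by rw [map_add, map_add]⟩
  obtain ⟨b', rfl⟩ := hlift b hb
  refine ⟨F, inferInstance, fun a => Br.E x y (θ (ψ a)), b', ?_, ?_⟩
  · exact Brachy.comp_hom (Br.E x y) (Br.E_brachy x y) (θ.comp ψ)
  · change Br.E x y (θ (ψ (a + b'))) ≠ _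
    rw [map_add, map_add]
    exact hne

/-- all nonconstant coefficients nilpotent: constant plus nilpotent -/
theorem nil_main (k : Type u) [CommRing k] (X : Type v) (a : FreeAlgebra k X)
    (h : ∀ w : FreeMonoid X, w ≠ 1 → IsNilpotent (coef a w)) :
    ∃ c : k, IsNilpotent (a - algebraMap k (FreeAlgebra k X) c) := by
  classical
  refine ⟨coef a 1, ?_⟩
  let e : FreeAlgebra k X ≃ₐ[k] MonoidAlgebra k (FreeMonoid X) :=
    FreeAlgebra.equivMonoidAlgebraFreeMonoid
  have h1 : IsNilpotent (e (a - algebraMap k (FreeAlgebra k X) (coef a 1))) := by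
    apply nilp_of_coeff
    intro w
    rw [map_sub, AlgEquiv.commutes, MonoidAlgebra.coeff_sub, Finsupp.sub_apply]
    by_cases hw : w = 1
    · subst hw
      have : ((algebraMap k (MonoidAlgebra k (FreeMonoid X))) (coef a 1)).coeff 1 = coef a 1 := by
        simp [MonoidAlgebra.coe_algebraMap]
      rw [this]
      change IsNilpotent (coef a 1 - coef a 1)
      rw [sub_self]
      exact IsNilpotent.zero
    · have : ((algebraMap k (MonoidAlgebra k (FreeMonoid X))) (coef a 1)).coeff w = 0 := by
        simp [MonoidAlgebra.coe_algebraMap, Ne.symm hw]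
      rw [this, sub_zero]
      exact h w hw
  obtain ⟨n, hn⟩ := h1
  refine ⟨n, ?_⟩
  rw [← map_pow] at hn
  exact (map_eq_zero_iff e e.injective).mp hn

theorem comm_of_subsingleton (k : Type u) [CommRing k] (X : Type v) [Subsingleton X]
    (a b : FreeAlgebra k X) : Commute a b := by
  have h1 : ∀ (x : X) (b : FreeAlgebra k X), Commute (FreeAlgebra.ι k x) b := by
    intro x b
    induction b using FreeAlgebra.induction with
    | grade0 r => exact (Algebra.commutes r _).symm
    | grade1 y => rw [Subsingleton.elim y x]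
    | mul b c hb hc => exact hb.mul_right hc
    | add b c hb hc => exact hb.add_right hc
  induction a using FreeAlgebra.induction with
  | grade0 r => exact Algebra.commutes r _
  | grade1 x => exact h1 x b
  | mul a c ha hc => exact ha.mul_left hc
  | add a c ha hc => exact ha.add_left hc

end Re

end Pool.Agent.Y56.BM
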